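import Mathlib
set_option autoImplicit false

/-! The two half-wave multipliers near the axis `e`. -/

namespace Pool.Agent.H197.WC

open MeasureTheory Set Filter Topology
open scoped RealInnerProductSpace

variable {E : Type*} [NormedAddCommGroup E] [InnerProductSpace ℝ E]

lemma perp (e ξ : E) (he : ‖e‖ = 1) : ‖ξ‖ ^ 2 - ⟪ξ, e⟫ ^ 2 = ‖ξ - ⟪ξ, e⟫ • e‖ ^ 2 := by
  rw [@norm_sub_sq_real, norm_smul, he, inner_smul_right, Real.norm_eq_abs]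
  rw [mul_one, sq_abs]
  ring

lemma perp_le (e ζ : E) (he : ‖e‖ = 1) : ‖ζ - ⟪ζ, e⟫ • e‖ ≤ ‖ζ‖ := by
  have h := perp e ζ he
  have : ‖ζ - ⟪ζ, e⟫ • e‖ ^ 2 ≤ ‖ζ‖ ^ 2 := by rw [← h]; nlinarith [sq_nonneg ⟪ζ, e⟫]
  exact (sq_le_sq₀ (norm_nonneg _) (norm_nonneg _)).1 this

lemma inner_le (e ζ : E) (he : ‖e‖ = 1) : |⟪ζ, e⟫| ≤ ‖ζ‖ := by
  have := abs_real_inner_le_norm ζ e
  rwa [he, mul_one] at this

lemma width (e ζ : E) (he : ‖e‖ = 1) (a : ℝ) (ha : a ≠ 0) :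
    |‖ζ + a • e‖ - (|⟪ζ + a • e, e⟫|)| ≤ 2 * (1 + ‖ζ‖) ^ 2 / |a| := by
  set ξ := ζ + a • e with hξ
  have hee : ⟪e, e⟫ = (1 : ℝ) := by rw [real_inner_self_eq_norm_sq, he]; norm_num
  have hin : ⟪ξ, e⟫ = ⟪ζ, e⟫ + a := by
    rw [hξ, inner_add_left, inner_smul_left, hee]; simp
  have hpe : ξ - ⟪ξ, e⟫ • e = ζ - ⟪ζ, e⟫ • e := by
    rw [hin, hξ, add_smul]; abel
  have hp := perp e ξ he
  rw [hpe] at hp
  have hle := perp_le e ζ he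
  set P := ‖ζ - ⟪ζ, e⟫ • e‖ with hP
  have hP0 : 0 ≤ P := norm_nonneg _
  have ha' : 0 < |a| := abs_pos.2 ha
  set X := ‖ξ‖ with hX
  set Y := |⟪ξ, e⟫| with hY
  have hX0 : 0 ≤ X := norm_nonneg _
  have hY0 : 0 ≤ Y := abs_nonneg _
  have hYX : Y ≤ X := inner_le e ξ he
  have hXY : X ^ 2 - Y ^ 2 = P ^ 2 := by rw [hY, sq_abs]; exact hp
  have hz := norm_nonneg ζ
  rw [abs_of_nonneg (by linarith), le_div_iff₀ ha']
  by_cases h : ‖ζ‖ ≤ |a| / 2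
  · have hY2 : |a| / 2 ≤ Y := by
      have h1 : |a| ≤ |⟪ζ, e⟫ + a| + |⟪ζ, e⟫| := by
        have := abs_sub_le (⟪ζ, e⟫ + a) 0 (-⟪ζ, e⟫)
        have h3 := abs_add_le (⟪ζ, e⟫ + a) (-⟪ζ, e⟫)
        rw [abs_neg] at h3
        have h4 : ⟪ζ, e⟫ + a + -⟪ζ, e⟫ = a := by ring
        rwa [h4] at h3
      have h2 := inner_le e ζ he
      rw [hY, hin]
      linarith
    have h5 : (X - Y) * (X + Y) = P ^ 2 := by rw [← hXY]; ring
    have h6 : (X - Y) * |a| ≤ (X - Y) * (X + Y) :=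
      mul_le_mul_of_nonneg_left (by linarith) (by linarith)
    have h7 : P ^ 2 ≤ ‖ζ‖ ^ 2 := by nlinarith
    nlinarith
  · push Not at h
    have h5 : (X - Y) ^ 2 ≤ P ^ 2 := by rw [← hXY]; nlinarith
    have h6 : X - Y ≤ P := by
      refine (sq_le_sq₀ (by linarith) hP0).1 h5
    have h7 : X - Y ≤ ‖ζ‖ := h6.trans hle
    nlinarith [mul_le_mul h7 h.le (by positivity) hz]

lemma cos_est (e ζ : E) (he : ‖e‖ = 1) (a : ℝ) (ha : a ≠ 0) (t : ℝ) :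
    |Real.cos (2 * Real.pi * t * ‖ζ + a • e‖) - Real.cos (2 * Real.pi * t * ⟪ζ + a • e, e⟫)|
      ≤ 13 * (1 + |t|) * (1 + ‖ζ‖) ^ 2 / |a| := by
  have ha' : 0 < |a| := abs_pos.2 ha
  set ξ := ζ + a • e with hξ
  have h1 : Real.cos (2 * Real.pi * t * ⟪ξ, e⟫) = Real.cos (2 * Real.pi * t * |⟪ξ, e⟫|) := by
    rcases abs_cases ⟪ξ, e⟫ with ⟨h, -⟩ | ⟨h, -⟩
    · rw [h]
    · rw [h, ← Real.cos_neg]; congr 1; ring
  rw [h1]
  refine (Real.abs_cos_sub_cos_le _ _).trans ?_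
  rw [← mul_sub, abs_mul]
  have h2 := width e ζ he a ha
  have h3 : |2 * Real.pi * t| = 2 * Real.pi * |t| := by
    rw [abs_mul, abs_of_pos (by positivity)]
  rw [h3]
  have hpi : Real.pi < 3.15 := Real.pi_lt_d2
  have hpi0 := Real.pi_pos
  have ht := abs_nonneg t
  calc 2 * Real.pi * |t| * |‖ξ‖ - (|⟪ξ, e⟫|)| ≤ 2 * Real.pi * |t| * (2 * (1 + ‖ζ‖) ^ 2 / |a|) := by
        gcongr
    _ = (4 * Real.pi * |t|) * (1 + ‖ζ‖) ^ 2 / |a| := by ring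
    _ ≤ 13 * (1 + |t|) * (1 + ‖ζ‖) ^ 2 / |a| := by
        gcongr <;> linarith

lemma sinc_est (e ζ : E) (he : ‖e‖ = 1) (a : ℝ) (ha : a ≠ 0) (t : ℝ) :
    |t * Real.sinc (2 * Real.pi * t * ‖ζ + a • e‖)| ≤ 13 * (1 + |t|) * (1 + ‖ζ‖) ^ 2 / |a| := by
  have ha' : 0 < |a| := abs_pos.2 ha
  have ht := abs_nonneg t
  have hz := norm_nonneg ζ
  set ξ := ζ + a • e with hξ
  rw [abs_mul, le_div_iff₀ ha']
  by_cases h : ‖ζ‖ ≤ |a| / 2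
  · have hξ2 : |a| / 2 ≤ ‖ξ‖ := by
      have h1 : ‖a • e‖ ≤ ‖ξ‖ + ‖ζ‖ := by
        have : a • e = ξ - ζ := by rw [hξ]; abel
        rw [this]; exact norm_sub_le _ _
      rw [norm_smul, he, mul_one, Real.norm_eq_abs] at h1
      linarith
    by_cases h0 : t = 0
    · subst h0; simp; positivity
    have ht0 : 0 < |t| := abs_pos.2 h0
    have hpi := Real.pi_gt_three
    have hξ0 : 0 < ‖ξ‖ := by linarith
    have hne : 2 * Real.pi * t * ‖ξ‖ ≠ 0 := by positivity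
    have hs : |Real.sinc (2 * Real.pi * t * ‖ξ‖)| ≤ (2 * Real.pi * |t| * ‖ξ‖)⁻¹ := by
      have h2 : |2 * Real.pi * t * ‖ξ‖| = 2 * Real.pi * |t| * ‖ξ‖ := by
        rw [abs_mul, abs_mul, abs_of_pos (show 0 < 2 * Real.pi by positivity), abs_norm]
      rw [Real.sinc_of_ne_zero hne, abs_div, h2, div_eq_mul_inv]
      exact mul_le_of_le_one_left (by positivity) (Real.abs_sin_le_one _)
    calc |t| * |Real.sinc (2 * Real.pi * t * ‖ξ‖)| * |a|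
        ≤ |t| * (2 * Real.pi * |t| * ‖ξ‖)⁻¹ * (2 * ‖ξ‖) := by
          gcongr
          linarith
      _ = 1 / Real.pi := by field_simp
      _ ≤ 1 := by rw [div_le_one Real.pi_pos]; linarith
      _ ≤ 13 * (1 + |t|) * (1 + ‖ζ‖) ^ 2 := by nlinarith [mul_nonneg ht hz, mul_nonneg ht (sq_nonneg ‖ζ‖)]
  · push Not at h
    have h1 := Real.abs_sinc_le_one (2 * Real.pi * t * ‖ξ‖)
    calc |t| * |Real.sinc (2 * Real.pi * t * ‖ξ‖)| * |a| ≤ |t| * 1 * (2 * ‖ζ‖) := by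
          gcongr
          linarith
      _ ≤ 13 * (1 + |t|) * (1 + ‖ζ‖) ^ 2 := by nlinarith [mul_nonneg ht hz, mul_nonneg ht (sq_nonneg ‖ζ‖)]

end Pool.Agent.H197.WC
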