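import Mathlib
set_option autoImplicit false

/-! A smooth `1`-periodic function with mean `0` that is `1` off a small set, and its Fourier
series. -/

namespace Pool.Agent.H197.WC

open MeasureTheory Set Filter Topology Complex
open scoped FourierTransform SchwartzMap ContDiff

/-- `s ↦ exp (2πi n s)`. -/
noncomputable def ex (n : ℤ) (s : ℝ) : ℂ := cexp (2 * Real.pi * I * n * s)

lemma norm_ex (n : ℤ) (s : ℝ) : ‖ex n s‖ = 1 := by
  unfold ex
  have : (2 * Real.pi * I * n * s : ℂ) = ((2 * Real.pi * n * s : ℝ) : ℂ) * I := by push_cast; ring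
  rw [this, Complex.norm_exp_ofReal_mul_I]

lemma ex_contDiff (n : ℤ) : ContDiff ℝ ∞ (ex n) := by
  have h : ContDiff ℝ ∞ (fun s : ℝ => (s : ℂ)) := Complex.ofRealCLM.contDiff
  unfold ex
  exact (contDiff_const.mul h).cexp

lemma iteratedDeriv_ex (n : ℤ) (k : ℕ) :
    iteratedDeriv k (ex n) = fun s => (2 * Real.pi * I * n : ℂ) ^ k * ex n s := by
  induction k with
  | zero => ext s; simp
  | succ k ih =>
    rw [iteratedDeriv_succ, ih]
    ext s
    have h : HasDerivAt (ex n) (ex n s * (2 * Real.pi * I * n * 1)) s := by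
      unfold ex
      have h1 : HasDerivAt (fun s : ℝ => (2 * Real.pi * I * n : ℂ) * (s : ℂ))
          ((2 * Real.pi * I * n : ℂ) * 1) s := (HasDerivAt.ofReal_comp (hasDerivAt_id s)).const_mul _
      exact h1.cexp
    rw [(h.const_mul _).deriv]
    ring

lemma norm_iter (c : ℂ) (n : ℤ) (k : ℕ) (s : ℝ) :
    ‖iteratedFDeriv ℝ k (fun s => c * ex n s) s‖ = (2 * Real.pi) ^ k * (‖c‖ * |(n : ℝ)| ^ k) := by
  rw [norm_iteratedFDeriv_eq_norm_iteratedDeriv]
  have h : iteratedDeriv k (fun s => c * ex n s) s = c * iteratedDeriv k (ex n) s := by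
    have hc : ContDiffAt ℝ k (ex n) s := ((ex_contDiff n).of_le (by exact_mod_cast le_top)).contDiffAt
    exact iteratedDeriv_const_mul_field c _
  rw [h, iteratedDeriv_ex]
  simp only [norm_mul, norm_pow, norm_ex, Complex.norm_I, Complex.norm_real, Complex.norm_intCast,
    Complex.norm_ofNat, Real.norm_eq_abs, abs_of_pos Real.pi_pos, mul_one]
  ring

/-- Fourier series with rapidly decreasing coefficients define functions of temperate growth. -/
lemma temperate (c : ℤ → ℂ) (hc : ∀ m : ℕ, Summable fun n : ℤ => ‖c n‖ * |(n : ℝ)| ^ m) :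
    (fun s => ∑' n : ℤ, c n * ex n s).HasTemperateGrowth := by
  have hf : ∀ n : ℤ, ContDiff ℝ ∞ (fun s => c n * ex n s) := fun n =>
    contDiff_const.mul (ex_contDiff n)
  have hv : ∀ k : ℕ, (k : ℕ∞) ≤ ⊤ →
      Summable (fun n : ℤ => (2 * Real.pi) ^ k * (‖c n‖ * |(n : ℝ)| ^ k)) := fun k _ =>
    (hc k).mul_left _
  have hb : ∀ (k : ℕ) (n : ℤ) (s : ℝ), (k : ℕ∞) ≤ ⊤ →
      ‖iteratedFDeriv ℝ k (fun s => c n * ex n s) s‖ ≤ (2 * Real.pi) ^ k * (‖c n‖ * |(n : ℝ)| ^ k) :=
    fun k n s _ => (norm_iter (c n) n k s).le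
  refine ⟨contDiff_tsum hf hv hb, fun k => ⟨0, ∑' n : ℤ, (2 * Real.pi) ^ k * (‖c n‖ * |(n : ℝ)| ^ k),
    fun s => ?_⟩⟩
  rw [iteratedFDeriv_tsum_apply hf hv hb le_top s, pow_zero, mul_one]
  exact tsum_of_norm_bounded (hv k le_top).hasSum fun n => hb k n s le_top

/-- Rapid decay of the values of a Schwartz function at the integers. -/
lemma decay (f : 𝓢(ℝ, ℂ)) (m : ℕ) : Summable fun n : ℤ => ‖f (n : ℝ)‖ * |(n : ℝ)| ^ m := by
  obtain ⟨C, hC⟩ := f.decay (m + 2) 0
  have h2 : Summable fun n : ℤ => C * (1 / (|(n : ℝ)| ^ 2)) := by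
    refine Summable.mul_left _ ?_
    have := (Real.summable_one_div_int_pow (p := 2)).2 (by norm_num)
    simpa [sq_abs] using this
  have h3 : Summable fun n : ℤ => if n = 0 then ‖f 0‖ * |(0 : ℝ)| ^ m else C * (1 / (|(n : ℝ)| ^ 2)) := by
    refine (summable_congr_cofinite ?_).1 h2
    rw [Filter.EventuallyEq, Filter.eventually_cofinite]
    refine (Set.finite_singleton (0 : ℤ)).subset ?_
    intro n hn
    by_contra h
    simp only [Set.mem_singleton_iff] at h
    apply hn
    simp [h]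
  refine Summable.of_nonneg_of_le (fun n => by positivity) (fun n => ?_) h3
  by_cases h : n = 0
  · subst h; simp
  · rw [if_neg h]
    have hn : 0 < |(n : ℝ)| := abs_pos.2 (by exact_mod_cast h)
    have := hC.2 (n : ℝ)
    rw [norm_iteratedFDeriv_zero, Real.norm_eq_abs, pow_add] at this
    rw [mul_one_div, le_div_iff₀ (by positivity)]
    nlinarith [this]

theorem exists_per (ε : ℝ) (h0 : 0 < ε) (h1 : ε ≤ 1) :
    ∃ (c : ℤ → ℂ) (ψ : ℝ → ℂ), c 0 = 0 ∧
      (∀ m : ℕ, Summable fun n : ℤ => ‖c n‖ * |(n : ℝ)| ^ m) ∧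
      (∀ s, HasSum (fun n : ℤ => c n * ex n s) (ψ s)) ∧
      (∀ s, ε ≤ Int.fract s → ψ s = 1) ∧ (∀ s, ‖ψ s‖ ≤ 2 / ε) ∧ ψ.HasTemperateGrowth := by
  set b : ContDiffBump (ε / 2) := ⟨3 * ε / 8, ε / 2, by linarith, by linarith⟩ with hb
  set φ : ℝ → ℝ := b.normed volume with hφ
  have φ0 : ∀ x, 0 ≤ φ x := fun x => b.nonneg_normed x
  have φb : ∀ x, φ x ≤ 2 / ε := by
    intro x
    have h := b.normed_le_div_measure_closedBall_rIn (μ := volume) x
    have e : volume.real (Metric.closedBall (ε / 2) b.rIn) = 3 * ε / 4 := by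
      rw [Real.closedBall_eq_Icc, Measure.real, Real.volume_Icc, ENNReal.toReal_ofReal]
      · simp only [hb]; ring
      · simp only [hb]; linarith
    rw [e] at h
    refine h.trans ?_
    rw [div_le_div_iff₀ (by linarith) h0]
    linarith
  have φz : ∀ x, φ x ≠ 0 → 0 < x ∧ x < ε := by
    intro x hx
    have : x ∈ Function.support (b.normed volume) := hx
    rw [b.support_normed_eq, Real.ball_eq_Ioo] at this
    simp only [hb, mem_Ioo] at this
    constructor <;> linarith [this.1, this.2]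
  have φi : ∫ x, φ x = 1 := b.integral_normed
  have hcs : HasCompactSupport (Complex.ofRealCLM ∘ φ) := b.hasCompactSupport_normed.comp_left rfl
  have hsm : ContDiff ℝ ∞ (Complex.ofRealCLM ∘ φ) :=
    Complex.ofRealCLM.contDiff.comp b.contDiff_normed
  set Φ : 𝓢(ℝ, ℂ) := hcs.toSchwartzMap hsm with hΦ
  have Φa : ∀ x, Φ x = (φ x : ℂ) := fun x => rfl
  set c : ℤ → ℂ := fun n => (if n = 0 then 1 else 0) - 𝓕 Φ (n : ℝ) with hc
  have hF0 : 𝓕 Φ (0 : ℝ) = 1 := by
    rw [SchwartzMap.fourier_coe, Real.fourier_eq]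
    simp only [inner_zero_right, neg_zero, AddChar.map_zero_eq_one, one_smul]
    simp only [Φa]
    have : ∫ v, ((φ v : ℝ) : ℂ) = ((∫ v, φ v : ℝ) : ℂ) := integral_ofReal
    rw [this, φi]
    simp
  have hc0 : c 0 = 0 := by simp [hc, hF0]
  have hcm : ∀ m : ℕ, Summable fun n : ℤ => ‖c n‖ * |(n : ℝ)| ^ m := by
    intro m
    refine Summable.of_nonneg_of_le (fun n => by positivity) (fun n => ?_) (decay (𝓕 Φ) m)
    by_cases h : n = 0
    · subst h; rw [hc0]; simp only [norm_zero, zero_mul]; positivity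
    · simp [hc, h]
  have hs : ∀ s : ℝ, HasSum (fun n : ℤ => c n * ex n s) (∑' n : ℤ, c n * ex n s) := by
    intro s
    refine Summable.hasSum (Summable.of_norm ?_)
    refine (hcm 0).congr fun n => ?_
    rw [norm_mul, norm_ex, pow_zero]
  have hfr : ∀ s : ℝ, ∑' n : ℤ, Φ (s + n) = (φ (Int.fract s) : ℂ) := by
    intro s
    rw [tsum_eq_single (-⌊s⌋)]
    · rw [Φa]
      congr 2
      rw [Int.fract]; push_cast; ring
    · intro n hn
      rw [Φa]
      by_contra h
      have h' : φ (s + n) ≠ 0 := fun h2 => h (by rw [h2]; simp)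
      obtain ⟨h3, h4⟩ := φz _ h'
      apply hn
      have h5 : -1 < (⌊s⌋ + n : ℤ) := by
        have := Int.fract_lt_one s
        have h6 : (-1 : ℝ) < ((⌊s⌋ + n : ℤ) : ℝ) := by
          push_cast
          rw [Int.fract] at this
          linarith
        exact_mod_cast h6
      have h7 : (⌊s⌋ + n : ℤ) < 1 := by
        have := Int.fract_nonneg s
        have h6 : ((⌊s⌋ + n : ℤ) : ℝ) < 1 := by
          push_cast
          rw [Int.fract] at this
          linarith
        exact_mod_cast h6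
      omega
  have hval : ∀ s : ℝ, ∑' n : ℤ, c n * ex n s = 1 - (φ (Int.fract s) : ℂ) := by
    intro s
    have hp := SchwartzMap.tsum_eq_tsum_fourier Φ s
    rw [hfr] at hp
    have e1 : ∀ n : ℤ, (fourier n (s : UnitAddCircle) : ℂ) = ex n s := by
      intro n
      rw [fourier_coe_apply]
      unfold ex
      simp
    have hs1 : Summable fun n : ℤ => 𝓕 Φ (n : ℝ) * ex n s := by
      refine Summable.of_norm ((decay (𝓕 Φ) 0).congr fun n => ?_)
      rw [norm_mul, norm_ex, pow_zero]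
    have hs2 : HasSum (fun n : ℤ => (if n = 0 then (1 : ℂ) else 0) * ex n s) 1 := by
      have e : (fun n : ℤ => (if n = 0 then (1 : ℂ) else 0) * ex n s)
          = fun n : ℤ => if n = 0 then 1 else 0 := by
        ext n
        by_cases h : n = 0
        · subst h; simp [ex]
        · simp [h]
      rw [e]
      exact hasSum_ite_eq (0 : ℤ) (1 : ℂ)
    have : (fun n : ℤ => c n * ex n s) = fun n : ℤ =>
        (if n = 0 then (1 : ℂ) else 0) * ex n s - 𝓕 Φ (n : ℝ) * ex n s := by
      ext n; simp only [hc]; ring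
    rw [this, (hs2.sub hs1.hasSum).tsum_eq, hp]
    simp only [e1]
  refine ⟨c, fun s => ∑' n : ℤ, c n * ex n s, hc0, hcm, hs, ?_, ?_, temperate c hcm⟩
  · intro s h
    simp only [hval]
    have : φ (Int.fract s) = 0 := by
      by_contra h2
      linarith [(φz _ h2).2]
    rw [this]; simp
  · intro s
    simp only [hval]
    rw [← Complex.ofReal_one, ← Complex.ofReal_sub, Complex.norm_real, Real.norm_eq_abs, abs_le]
    have h2 : (1 : ℝ) ≤ 2 / ε := by rw [le_div_iff₀ h0]; linarith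
    constructor <;> linarith [φ0 (Int.fract s), φb (Int.fract s)]

end Pool.Agent.H197.WC
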