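import Mathlib
set_option autoImplicit false

/-! Plancherel for `L¹ ∩ L²`. -/

namespace Pool.Agent.H197.WC

open Complex Filter Topology MeasureTheory FourierTransform
open scoped InnerProductSpace SchwartzMap ENNReal ContDiff

variable {E : Type*} [NormedAddCommGroup E] [InnerProductSpace ℝ E] [FiniteDimensional ℝ E]
  [MeasurableSpace E] [BorelSpace E]

lemma fourier_toLp_ae (h : E → ℂ) (h1 : Integrable h) (h2 : MemLp h 2) :
    (𝓕 (h2.toLp h : Lp (α := E) ℂ 2) : Lp (α := E) ℂ 2) =ᵐ[volume] 𝓕 h := by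
  apply ae_eq_of_integral_contDiff_smul_eq
  · exact (Lp.memLp _).locallyIntegrable (by norm_num)
  · apply Continuous.locallyIntegrable
    exact VectorFourier.fourierIntegral_continuous Real.continuous_fourierChar
      (innerSL ℝ).continuous₂ h1
  · intro g g_smooth g_cpt
    have hg₁ : HasCompactSupport (Complex.ofRealCLM ∘ g) := g_cpt.comp_left rfl
    have hg₂ : ContDiff ℝ ∞ (Complex.ofRealCLM ∘ g) := by fun_prop
    set G : 𝓢(E, ℂ) := hg₁.toSchwartzMap hg₂ with hG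
    have e1 : ∫ x, g x • (𝓕 (h2.toLp h : Lp (α := E) ℂ 2) : Lp (α := E) ℂ 2) x
        = (Lp.toTemperedDistribution (𝓕 (h2.toLp h : Lp (α := E) ℂ 2) : Lp (α := E) ℂ 2)) G := by
      rw [Lp.toTemperedDistribution_apply]
      simp [hG]
    rw [e1, ← Lp.fourier_toTemperedDistribution_eq, TemperedDistribution.fourier_apply,
      Lp.toTemperedDistribution_apply]
    have e2 : ∫ x, (𝓕 G) x • (h2.toLp h : Lp (α := E) ℂ 2) x = ∫ x, (𝓕 (G : E → ℂ)) x • h x := by
      apply integral_congr_ae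
      filter_upwards [h2.coeFn_toLp] with x hx
      rw [hx]
      rfl
    rw [e2]
    have e3 : ∫ x, (𝓕 (G : E → ℂ)) x • h x = ∫ x, (G x) • (𝓕 h) x := by
      simpa using! (VectorFourier.integral_fourierIntegral_smul_eq_flip (L := innerₗ E)
        Real.continuous_fourierChar continuous_inner G.integrable h1)
    rw [e3]
    apply integral_congr_ae
    filter_upwards with x
    simp [hG]

lemma plancherel (h : E → ℂ) (h1 : Integrable h) (h2 : MemLp h 2) :
    eLpNorm (𝓕 h) 2 volume = eLpNorm h 2 volume := by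
  have e1 : ‖(𝓕 (h2.toLp h : Lp (α := E) ℂ 2) : Lp (α := E) ℂ 2)‖ₑ = ‖(h2.toLp h : Lp (α := E) ℂ 2)‖ₑ := by
    rw [← ofReal_norm, ← ofReal_norm, Lp.norm_fourier_eq]
  rw [Lp.enorm_def, Lp.enorm_def, eLpNorm_congr_ae (fourier_toLp_ae h h1 h2),
    eLpNorm_congr_ae h2.coeFn_toLp] at e1
  exact e1

lemma plancherel_inv (h : E → ℂ) (h1 : Integrable h) (h2 : MemLp h 2) :
    eLpNorm (𝓕⁻ h) 2 volume = eLpNorm h 2 volume := by
  have e : (𝓕⁻ h : E → ℂ) = (𝓕 h) ∘ (fun x => -x) := by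
    ext x
    simp only [Function.comp_apply, Real.fourierInv_eq_fourier_neg]
  rw [e, eLpNorm_comp_measurePreserving]
  · exact plancherel h h1 h2
  · exact (VectorFourier.fourierIntegral_continuous Real.continuous_fourierChar
      (innerSL ℝ).continuous₂ h1).aestronglyMeasurable
  · exact Measure.measurePreserving_neg volume

/-- If `|g| ≤ A` and `∫ |g| ≤ A` then `𝓕⁻ g` is at most `A` in sup norm and in `L²`. -/
lemma inv_bounds (g : E → ℂ) (A : ℝ) (hA : 0 ≤ A) (h1 : Integrable g)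
    (hs : ∀ x, ‖g x‖ ≤ A) (hi : ∫ x, ‖g x‖ ≤ A) :
    (∀ x, ‖𝓕⁻ g x‖ ≤ A) ∧ eLpNorm (𝓕⁻ g) 2 volume ≤ ENNReal.ofReal A := by
  constructor
  · intro x
    rw [Real.fourierInv_eq]
    refine (norm_integral_le_integral_norm _).trans ?_
    simpa using hi
  · have h2 : MemLp g 2 := by
      refine (memLp_two_iff_integrable_sq_norm h1.1).2 ?_
      refine (h1.norm.mul_const A).mono' ((h1.1.norm.pow 2)) (ae_of_all _ fun x => ?_)
      rw [Real.norm_eq_abs, abs_of_nonneg (by positivity), sq]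
      exact mul_le_mul_of_nonneg_left (hs x) (norm_nonneg _)
    rw [plancherel_inv g h1 h2]
    rw [eLpNorm_eq_lintegral_rpow_enorm_toReal (by norm_num) (by norm_num)]
    have hle : ∫⁻ x, ‖g x‖ₑ ^ (2 : ENNReal).toReal ≤ ENNReal.ofReal (A * A) := by
      calc ∫⁻ x, ‖g x‖ₑ ^ (2 : ENNReal).toReal
          ≤ ∫⁻ x, ENNReal.ofReal A * ‖g x‖ₑ := by
            refine lintegral_mono fun x => ?_
            simp only [ENNReal.toReal_ofNat, ENNReal.rpow_ofNat, sq]
            gcongr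
            rw [← ofReal_norm]
            exact ENNReal.ofReal_le_ofReal (hs x)
        _ = ENNReal.ofReal A * ∫⁻ x, ‖g x‖ₑ := lintegral_const_mul' _ _ ENNReal.ofReal_ne_top
        _ ≤ ENNReal.ofReal A * ENNReal.ofReal A := by
            gcongr
            rw [← ofReal_integral_norm_eq_lintegral_enorm h1]
            exact ENNReal.ofReal_le_ofReal hi
        _ = ENNReal.ofReal (A * A) := (ENNReal.ofReal_mul hA).symm
    refine (ENNReal.rpow_le_rpow hle (by positivity)).trans ?_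
    rw [ENNReal.ofReal_rpow_of_nonneg (by positivity) (by positivity)]
    refine ENNReal.ofReal_le_ofReal ?_
    rw [← sq, ← Real.rpow_natCast, ← Real.rpow_mul hA]
    simp

/-- Interpolation: small in sup norm and in `L²` implies small in `L^p`, `p ≥ 2`. -/
lemma interp (f : E → ℂ) (η : ℝ) (hη : 0 ≤ η) (hs : ∀ x, ‖f x‖ ≤ η)
    (h2 : eLpNorm f 2 volume ≤ ENNReal.ofReal η) (p : ENNReal) (hp : 2 ≤ p) :
    eLpNorm f p volume ≤ ENNReal.ofReal η := by
  by_cases hpt : p = ⊤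
  · subst hpt
    rw [eLpNorm_exponent_top]
    refine eLpNormEssSup_le_of_ae_bound (C := η) (ae_of_all _ hs)
  have hp0 : p ≠ 0 := (lt_of_lt_of_le (by norm_num) hp).ne'
  have hp2 : (2 : ℝ) ≤ p.toReal := by
    have := ENNReal.toReal_mono hpt hp
    simpa using this
  rw [eLpNorm_eq_lintegral_rpow_enorm_toReal hp0 hpt]
  rw [eLpNorm_eq_lintegral_rpow_enorm_toReal (by norm_num) (by norm_num)] at h2
  have h3 : ∫⁻ x, ‖f x‖ₑ ^ (2 : ℝ) ≤ ENNReal.ofReal η ^ (2 : ℝ) := by
    have := ENNReal.rpow_le_rpow h2 (z := (2 : ℝ)) (by norm_num)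
    rw [← ENNReal.rpow_mul] at this
    simpa using this
  have h4 : ∫⁻ x, ‖f x‖ₑ ^ p.toReal ≤ ENNReal.ofReal η ^ p.toReal := by
    have e : ∀ x : E, ‖f x‖ₑ ^ p.toReal ≤ ENNReal.ofReal η ^ (p.toReal - 2) * ‖f x‖ₑ ^ (2 : ℝ) := by
      intro x
      have : p.toReal = (p.toReal - 2) + 2 := by ring
      conv_lhs => rw [this]
      rw [ENNReal.rpow_add_of_nonneg _ _ (by linarith) (by norm_num)]
      gcongr
      rw [← ofReal_norm]
      exact ENNReal.ofReal_le_ofReal (hs x)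
    calc ∫⁻ x, ‖f x‖ₑ ^ p.toReal
        ≤ ∫⁻ x, ENNReal.ofReal η ^ (p.toReal - 2) * ‖f x‖ₑ ^ (2 : ℝ) := lintegral_mono e
      _ = ENNReal.ofReal η ^ (p.toReal - 2) * ∫⁻ x, ‖f x‖ₑ ^ (2 : ℝ) :=
          lintegral_const_mul' _ _ (ENNReal.rpow_ne_top_of_nonneg (by linarith) ENNReal.ofReal_ne_top)
      _ ≤ ENNReal.ofReal η ^ (p.toReal - 2) * ENNReal.ofReal η ^ (2 : ℝ) := by gcongr
      _ = ENNReal.ofReal η ^ p.toReal := by
          rw [← ENNReal.rpow_add_of_nonneg _ _ (by linarith) (by norm_num)]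
          congr 1; ring
  refine (ENNReal.rpow_le_rpow h4 (by positivity)).trans ?_
  rw [← ENNReal.rpow_mul]
  have : p.toReal * (1 / p.toReal) = 1 := by field_simp
  rw [this, ENNReal.rpow_one]

end Pool.Agent.H197.WC
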