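import Mathlib
import Pool.Agent.H197.WC.Per
import Pool.Agent.H197.WC.Est
import Pool.Agent.H197.WC.Planch
set_option autoImplicit false
set_option linter.unusedSectionVars false

/-! The wave with data `ψ(N x·e) u₀, ψ(N x·e) u₁`. -/

namespace Pool.Agent.H197.WC

open MeasureTheory Set Filter Topology
open scoped ENNReal NNReal FourierTransform RealInnerProductSpace SchwartzMap

variable {E : Type*} [NormedAddCommGroup E] [InnerProductSpace ℝ E] [FiniteDimensional ℝ E]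
  [MeasurableSpace E] [BorelSpace E]

lemma char_ex (n : ℤ) (N : ℝ) (x ξ e : E) :
    ((Real.fourierChar (-⟪x, ξ - ((n : ℝ) * N) • e⟫) : Circle) : ℂ) =
      ((Real.fourierChar (-⟪x, ξ⟫) : Circle) : ℂ) * ex n (N * ⟪x, e⟫) := by
  rw [Real.fourierChar_apply, Real.fourierChar_apply, ex, ← Complex.exp_add, inner_sub_right,
    inner_smul_right]
  congr 1
  push_cast
  ring

lemma four (c : ℤ → ℂ) (ψ : ℝ → ℂ) (hc : Summable fun n => ‖c n‖)
    (hψ : ∀ s, HasSum (fun n : ℤ => c n * ex n s) (ψ s)) (u v : 𝓢(E, ℂ)) (e : E) (N : ℝ)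
    (hv : ∀ x, v x = ψ (N * ⟪x, e⟫) * u x) (ξ : E) :
    HasSum (fun n : ℤ => c n * 𝓕 u (ξ - ((n : ℝ) * N) • e)) (𝓕 v ξ) := by
  set F : ℤ → E → ℂ := fun n x =>
    ((Real.fourierChar (-⟪x, ξ⟫) : Circle) : ℂ) * (c n * ex n (N * ⟪x, e⟫) * u x) with hF
  have hFe : ∀ n, ∫ x, F n x = c n * 𝓕 u (ξ - ((n : ℝ) * N) • e) := by
    intro n
    rw [SchwartzMap.fourier_coe, Real.fourier_eq, ← integral_const_mul]
    congr 1
    ext x
    rw [Circle.smul_def, char_ex, smul_eq_mul, hF]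
    ring
  have hnF : ∀ n x, ‖F n x‖ = ‖c n‖ * ‖u x‖ := by
    intro n x
    simp only [hF, norm_mul, Circle.norm_coe, norm_ex, one_mul, mul_one]
  have hcont : ∀ n, Continuous (F n) := by
    intro n
    have h1 : Continuous fun x : E => ((Real.fourierChar (-⟪x, ξ⟫) : Circle) : ℂ) :=
      continuous_subtype_val.comp (Real.continuous_fourierChar.comp (by fun_prop))
    have h2 : Continuous fun x : E => ex n (N * ⟪x, e⟫) :=
      (ex_contDiff n).continuous.comp (by fun_prop)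
    exact h1.mul ((continuous_const.mul h2).mul u.continuous)
  have hint : ∀ n, Integrable (F n) := by
    intro n
    refine (u.integrable.norm.const_mul ‖c n‖).mono' (hcont n).aestronglyMeasurable
      (ae_of_all _ fun x => ?_)
    rw [hnF]
  have hsum : Summable fun n => ∫ x, ‖F n x‖ := by
    simp only [hnF, integral_const_mul]
    exact hc.mul_right _
  have h := hasSum_integral_of_summable_integral_norm hint hsum
  simp only [hFe] at h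
  have e1 : ∫ x, ∑' n, F n x = 𝓕 v ξ := by
    rw [SchwartzMap.fourier_coe, Real.fourier_eq]
    congr 1
    ext x
    rw [Circle.smul_def, smul_eq_mul, hv]
    have := (((hψ (N * ⟪x, e⟫)).mul_right (u x)).mul_left
      ((Real.fourierChar (-⟪x, ξ⟫) : Circle) : ℂ)).tsum_eq
    rw [← this]
  rwa [e1] at h

lemma wt (f : 𝓢(E, ℂ)) : ∃ A, 0 ≤ A ∧ (∀ x, (1 + ‖x‖) ^ 2 * ‖f x‖ ≤ A) ∧
    Integrable (fun x => (1 + ‖x‖) ^ 2 * ‖f x‖) := by
  obtain ⟨C0, h0⟩ := f.decay 0 0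
  obtain ⟨C1, h1⟩ := f.decay 1 0
  obtain ⟨C2, h2⟩ := f.decay 2 0
  refine ⟨C0 + 2 * C1 + C2, by linarith [h0.1, h1.1, h2.1], fun x => ?_, ?_⟩
  · have a0 := h0.2 x
    have a1 := h1.2 x
    have a2 := h2.2 x
    rw [norm_iteratedFDeriv_zero] at a0 a1 a2
    nlinarith
  · have i0 := f.integrable_pow_mul volume 0
    have i1 := f.integrable_pow_mul volume 1
    have i2 := f.integrable_pow_mul volume 2
    refine ((i0.add (i1.const_mul 2)).add i2).congr (ae_of_all _ fun x => ?_)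
    simp only [Pi.add_apply]
    ring

/-- The wave with data `v₀, v₁`. -/
noncomputable def wv (v₀ v₁ : 𝓢(E, ℂ)) (t : ℝ) : E → ℂ :=
  𝓕⁻ fun ξ => ((Real.cos (2 * Real.pi * t * ‖ξ‖) : ℝ) : ℂ) * 𝓕 v₀ ξ +
    ((t * Real.sinc (2 * Real.pi * t * ‖ξ‖) : ℝ) : ℂ) * 𝓕 v₁ ξ

/-- The Fourier side of the error. -/
noncomputable def er (v₀ v₁ : 𝓢(E, ℂ)) (e : E) (t : ℝ) (ξ : E) : ℂ :=
  ((Real.cos (2 * Real.pi * t * ‖ξ‖) - Real.cos (2 * Real.pi * t * ⟪ξ, e⟫) : ℝ) : ℂ) * 𝓕 v₀ ξ +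
    ((t * Real.sinc (2 * Real.pi * t * ‖ξ‖) : ℝ) : ℂ) * 𝓕 v₁ ξ

lemma cont_cos (t : ℝ) : Continuous fun ξ : E => ((Real.cos (2 * Real.pi * t * ‖ξ‖) : ℝ) : ℂ) := by
  fun_prop

lemma cont_cose (e : E) (t : ℝ) :
    Continuous fun ξ : E => ((Real.cos (2 * Real.pi * t * ⟪ξ, e⟫) : ℝ) : ℂ) := by
  fun_prop

lemma cont_sinc (t : ℝ) :
    Continuous fun ξ : E => ((t * Real.sinc (2 * Real.pi * t * ‖ξ‖) : ℝ) : ℂ) := by
  have := Real.continuous_sinc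
  fun_prop

lemma int_mul {m : E → ℂ} (hm : Continuous m) (C : ℝ) (hb : ∀ ξ, ‖m ξ‖ ≤ C) (f : 𝓢(E, ℂ)) :
    Integrable fun ξ => m ξ * f ξ :=
  f.integrable.bdd_mul hm.aestronglyMeasurable (ae_of_all _ hb)

lemma int_cos (v : 𝓢(E, ℂ)) (t : ℝ) :
    Integrable fun ξ => ((Real.cos (2 * Real.pi * t * ‖ξ‖) : ℝ) : ℂ) * 𝓕 v ξ :=
  int_mul (cont_cos t) 1 (fun ξ => by rw [Complex.norm_real]; exact Real.abs_cos_le_one _) (𝓕 v)

lemma int_cose (v : 𝓢(E, ℂ)) (e : E) (t : ℝ) :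
    Integrable fun ξ => ((Real.cos (2 * Real.pi * t * ⟪ξ, e⟫) : ℝ) : ℂ) * 𝓕 v ξ :=
  int_mul (cont_cose e t) 1 (fun ξ => by rw [Complex.norm_real]; exact Real.abs_cos_le_one _) (𝓕 v)

lemma int_sinc (v : 𝓢(E, ℂ)) (t : ℝ) :
    Integrable fun ξ => ((t * Real.sinc (2 * Real.pi * t * ‖ξ‖) : ℝ) : ℂ) * 𝓕 v ξ :=
  int_mul (cont_sinc t) |t| (fun ξ => by
    rw [Complex.norm_real, Real.norm_eq_abs, abs_mul]
    exact mul_le_of_le_one_right (abs_nonneg _) (Real.abs_sinc_le_one _)) (𝓕 v)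

lemma int_er (v₀ v₁ : 𝓢(E, ℂ)) (e : E) (t : ℝ) : Integrable (er v₀ v₁ e t) := by
  have h := ((int_cos v₀ t).sub (int_cose v₀ e t)).add (int_sinc v₁ t)
  refine h.congr (ae_of_all _ fun ξ => ?_)
  simp only [Pi.add_apply, Pi.sub_apply, er]
  push_cast
  ring

lemma finv_apply (g : E → ℂ) (x : E) :
    𝓕⁻ g x = ∫ ξ, ((Real.fourierChar ⟪ξ, x⟫ : Circle) : ℂ) * g ξ := by
  rw [Real.fourierInv_eq]
  rfl

lemma finv_int {g : E → ℂ} (hg : Integrable g) (x : E) :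
    Integrable fun ξ => ((Real.fourierChar ⟪ξ, x⟫ : Circle) : ℂ) * g ξ := by
  refine hg.bdd_mul (c := 1) ?_ (ae_of_all _ fun ξ => (Circle.norm_coe _).le)
  exact (continuous_subtype_val.comp (Real.continuous_fourierChar.comp
    (by fun_prop))).aestronglyMeasurable

lemma finv_add {g h : E → ℂ} (hg : Integrable g) (hh : Integrable h) (x : E) :
    𝓕⁻ (fun ξ => g ξ + h ξ) x = 𝓕⁻ g x + 𝓕⁻ h x := by
  rw [finv_apply, finv_apply, finv_apply, ← integral_add (finv_int hg x) (finv_int hh x)]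
  congr 1
  ext ξ
  ring

lemma finv_cose (v : 𝓢(E, ℂ)) (e : E) (t : ℝ) (x : E) :
    𝓕⁻ (fun ξ => ((Real.cos (2 * Real.pi * t * ⟪ξ, e⟫) : ℝ) : ℂ) * 𝓕 v ξ) x =
      (v (x + t • e) + v (x - t • e)) / 2 := by
  have hv : ∀ y, v y = ∫ ξ, ((Real.fourierChar ⟪ξ, y⟫ : Circle) : ℂ) * 𝓕 v ξ := by
    intro y
    have h1 : 𝓕⁻ (𝓕 v) = v := FourierTransform.fourierInv_fourier_eq v
    have h2 : v y = 𝓕⁻ (𝓕 v) y := by rw [h1]
    rw [h2, SchwartzMap.fourierInv_coe, finv_apply]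
  rw [hv (x + t • e), hv (x - t • e), finv_apply,
    ← integral_add (finv_int (𝓕 v).integrable _) (finv_int (𝓕 v).integrable _), ← integral_div]
  congr 1
  ext ξ
  rw [inner_add_right, inner_sub_right, inner_smul_right, AddChar.map_add_eq_mul,
    sub_eq_add_neg, AddChar.map_add_eq_mul, Circle.coe_mul, Circle.coe_mul,
    Real.fourierChar_apply (t * ⟪ξ, e⟫), Real.fourierChar_apply (-(t * ⟪ξ, e⟫)),
    Complex.ofReal_cos, Complex.cos]
  push_cast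
  have e1 : 2 * (Real.pi : ℂ) * t * ⟪ξ, e⟫ * Complex.I = 2 * Real.pi * (t * ⟪ξ, e⟫) * Complex.I := by
    ring
  have e2 : -(2 * (Real.pi : ℂ) * t * ⟪ξ, e⟫) * Complex.I
      = 2 * Real.pi * -(t * ⟪ξ, e⟫) * Complex.I := by
    ring
  rw [e1, e2]
  ring

lemma wv_eq (v₀ v₁ : 𝓢(E, ℂ)) (e : E) (t : ℝ) (x : E) :
    wv v₀ v₁ t x - (v₀ (x + t • e) + v₀ (x - t • e)) / 2 = 𝓕⁻ (er v₀ v₁ e t) x := by
  rw [sub_eq_iff_eq_add, ← finv_cose, ← finv_add (int_er v₀ v₁ e t) (int_cose v₀ e t)]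
  have h : (fun ξ => ((Real.cos (2 * Real.pi * t * ‖ξ‖) : ℝ) : ℂ) * 𝓕 v₀ ξ +
      ((t * Real.sinc (2 * Real.pi * t * ‖ξ‖) : ℝ) : ℂ) * 𝓕 v₁ ξ) =
      fun ξ => er v₀ v₁ e t ξ + ((Real.cos (2 * Real.pi * t * ⟪ξ, e⟫) : ℝ) : ℂ) * 𝓕 v₀ ξ := by
    ext ξ
    unfold er
    push_cast
    ring
  unfold wv
  rw [h]

end Pool.Agent.H197.WC
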