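import Mathlib
import Pool.Agent.H197.WC.Four
set_option autoImplicit false
set_option linter.unusedSectionVars false

/-! The error bound. -/

namespace Pool.Agent.H197.WC

open MeasureTheory Set Filter Topology
open scoped ENNReal NNReal FourierTransform RealInnerProductSpace SchwartzMap

variable {E : Type*} [NormedAddCommGroup E] [InnerProductSpace ℝ E] [FiniteDimensional ℝ E]
  [MeasurableSpace E] [BorelSpace E]

/-- The weight. -/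
noncomputable def G (u₀ u₁ : 𝓢(E, ℂ)) (ζ : E) : ℝ :=
  (1 + ‖ζ‖) ^ 2 * ‖𝓕 u₀ ζ‖ + (1 + ‖ζ‖) ^ 2 * ‖𝓕 u₁ ζ‖

lemma G_nonneg (u₀ u₁ : 𝓢(E, ℂ)) (ζ : E) : 0 ≤ G u₀ u₁ ζ := by unfold G; positivity

lemma term_bd (c : ℂ) (n : ℤ) (hn : n ≠ 0) (u₀ u₁ : 𝓢(E, ℂ)) (e : E) (he : ‖e‖ = 1) (N : ℝ)
    (hN : 1 ≤ N) (t : ℝ) (ξ : E) :
    ‖((Real.cos (2 * Real.pi * t * ‖ξ‖) - Real.cos (2 * Real.pi * t * ⟪ξ, e⟫) : ℝ) : ℂ) *
      (c * 𝓕 u₀ (ξ - ((n : ℝ) * N) • e)) + ((t * Real.sinc (2 * Real.pi * t * ‖ξ‖) : ℝ) : ℂ) *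
      (c * 𝓕 u₁ (ξ - ((n : ℝ) * N) • e))‖ ≤
      ‖c‖ * (13 * (1 + |t|) / N) * G u₀ u₁ (ξ - ((n : ℝ) * N) • e) := by
  set a : ℝ := (n : ℝ) * N with ha
  set ζ := ξ - a • e with hζ
  have hξ : ζ + a • e = ξ := by rw [hζ]; abel
  have hn1 : (1 : ℝ) ≤ |(n : ℝ)| := by
    have : (1 : ℤ) ≤ |n| := Int.one_le_abs hn
    exact_mod_cast this
  have haN : N ≤ |a| := by
    rw [ha, abs_mul, abs_of_pos (by linarith : (0 : ℝ) < N)]
    nlinarith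
  have ha0 : a ≠ 0 := by
    intro h; rw [h, abs_zero] at haN; linarith
  have h1 := cos_est e ζ he a ha0 t
  have h2 := sinc_est e ζ he a ha0 t
  rw [hξ] at h1 h2
  have h3 : 13 * (1 + |t|) * (1 + ‖ζ‖) ^ 2 / |a| ≤ 13 * (1 + |t|) / N * (1 + ‖ζ‖) ^ 2 := by
    rw [div_mul_eq_mul_div]
    gcongr
  refine (norm_add_le _ _).trans ?_
  rw [norm_mul, norm_mul, norm_mul, norm_mul, Complex.norm_real, Complex.norm_real,
    Real.norm_eq_abs, Real.norm_eq_abs]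
  calc _ ≤ (13 * (1 + |t|) / N * (1 + ‖ζ‖) ^ 2) * (‖c‖ * ‖𝓕 u₀ ζ‖) +
        (13 * (1 + |t|) / N * (1 + ‖ζ‖) ^ 2) * (‖c‖ * ‖𝓕 u₁ ζ‖) := by
        gcongr
        · exact h1.trans h3
        · exact h2.trans h3
    _ = _ := by unfold G; ring

theorem main_bound (c : ℤ → ℂ) (ψ : ℝ → ℂ) (hc0 : c 0 = 0) (hc : Summable fun n => ‖c n‖)
    (hψ : ∀ s, HasSum (fun n : ℤ => c n * ex n s) (ψ s)) (u₀ u₁ : 𝓢(E, ℂ)) (e : E)
    (he : ‖e‖ = 1) :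
    ∃ A, 0 ≤ A ∧ ∀ N : ℝ, 1 ≤ N → ∀ v₀ v₁ : 𝓢(E, ℂ), (∀ x, v₀ x = ψ (N * ⟪x, e⟫) * u₀ x) →
      (∀ x, v₁ x = ψ (N * ⟪x, e⟫) * u₁ x) → ∀ t : ℝ,
      (∀ x, ‖wv v₀ v₁ t x - (v₀ (x + t • e) + v₀ (x - t • e)) / 2‖ ≤ A * (1 + |t|) / N) ∧
      eLpNorm (fun x => wv v₀ v₁ t x - (v₀ (x + t • e) + v₀ (x - t • e)) / 2) 2 volume
        ≤ ENNReal.ofReal (A * (1 + |t|) / N) := by
  obtain ⟨A0, hA0, b0, i0⟩ := wt (𝓕 u₀)
  obtain ⟨A1, hA1, b1, i1⟩ := wt (𝓕 u₁)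
  have hGi : Integrable (G u₀ u₁) := i0.add i1
  have hGb : ∀ ζ, G u₀ u₁ ζ ≤ A0 + A1 := fun ζ => add_le_add (b0 ζ) (b1 ζ)
  set J := ∫ ζ, G u₀ u₁ ζ with hJ
  have hJ0 : 0 ≤ J := integral_nonneg fun ζ => G_nonneg _ _ ζ
  set S := ∑' n, ‖c n‖ with hS
  have hS0 : 0 ≤ S := tsum_nonneg fun n => norm_nonneg _
  refine ⟨13 * S * (A0 + A1 + J), by positivity, ?_⟩
  intro N hN v₀ v₁ hv₀ hv₁ t
  set K := 13 * (1 + |t|) / N with hK
  have hK0 : 0 ≤ K := by positivity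
  have hsum : ∀ ξ, HasSum (fun n : ℤ =>
      ((Real.cos (2 * Real.pi * t * ‖ξ‖) - Real.cos (2 * Real.pi * t * ⟪ξ, e⟫) : ℝ) : ℂ) *
      (c n * 𝓕 u₀ (ξ - ((n : ℝ) * N) • e)) + ((t * Real.sinc (2 * Real.pi * t * ‖ξ‖) : ℝ) : ℂ) *
      (c n * 𝓕 u₁ (ξ - ((n : ℝ) * N) • e))) (er v₀ v₁ e t ξ) := fun ξ =>
    ((four c ψ hc hψ u₀ v₀ e N hv₀ ξ).mul_left _).add ((four c ψ hc hψ u₁ v₁ e N hv₁ ξ).mul_left _)
  have hterm : ∀ ξ (n : ℤ),
      ‖((Real.cos (2 * Real.pi * t * ‖ξ‖) - Real.cos (2 * Real.pi * t * ⟪ξ, e⟫) : ℝ) : ℂ) *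
      (c n * 𝓕 u₀ (ξ - ((n : ℝ) * N) • e)) + ((t * Real.sinc (2 * Real.pi * t * ‖ξ‖) : ℝ) : ℂ) *
      (c n * 𝓕 u₁ (ξ - ((n : ℝ) * N) • e))‖ ≤ ‖c n‖ * K * G u₀ u₁ (ξ - ((n : ℝ) * N) • e) := by
    intro ξ n
    by_cases hn : n = 0
    · subst hn; rw [hc0]; simp
    · exact term_bd (c n) n hn u₀ u₁ e he N hN t ξ
  have hb : ∀ ξ, ‖er v₀ v₁ e t ξ‖ ≤ S * K * (A0 + A1) := by
    intro ξ
    rw [← (hsum ξ).tsum_eq]
    refine tsum_of_norm_bounded (g := fun n => ‖c n‖ * K * (A0 + A1)) ?_ fun n => ?_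
    · exact (hc.hasSum.mul_right K).mul_right _
    · exact (hterm ξ n).trans (by gcongr; exact hGb _)
  have hlin : ∫⁻ ξ, ‖er v₀ v₁ e t ξ‖ₑ ≤ ENNReal.ofReal (S * K * J) := by
    have hshift : ∀ a : E, ∫⁻ ξ, ENNReal.ofReal (G u₀ u₁ (ξ - a)) = ENNReal.ofReal J := by
      intro a
      rw [lintegral_sub_right_eq_self (fun ξ => ENNReal.ofReal (G u₀ u₁ ξ)),
        ← ofReal_integral_eq_lintegral_ofReal hGi (ae_of_all _ fun ζ => G_nonneg _ _ ζ)]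
    calc ∫⁻ ξ, ‖er v₀ v₁ e t ξ‖ₑ
        ≤ ∫⁻ ξ, ∑' n : ℤ, ENNReal.ofReal (‖c n‖ * K) *
            ENNReal.ofReal (G u₀ u₁ (ξ - ((n : ℝ) * N) • e)) := by
          refine lintegral_mono fun ξ => ?_
          have hs : Summable fun n : ℤ => ‖c n‖ * K * G u₀ u₁ (ξ - ((n : ℝ) * N) • e) := by
            refine Summable.of_nonneg_of_le (fun n => ?_) (fun n => ?_)
              ((hc.mul_right K).mul_right (A0 + A1))
            · exact mul_nonneg (by positivity) (G_nonneg _ _ _)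
            · gcongr; exact hGb _
          have h1 : ‖er v₀ v₁ e t ξ‖ ≤ ∑' n : ℤ, ‖c n‖ * K * G u₀ u₁ (ξ - ((n : ℝ) * N) • e) := by
            rw [← (hsum ξ).tsum_eq]
            exact tsum_of_norm_bounded hs.hasSum (hterm ξ)
          rw [← ofReal_norm]
          refine (ENNReal.ofReal_le_ofReal h1).trans (le_of_eq ?_)
          rw [ENNReal.ofReal_tsum_of_nonneg (fun n => mul_nonneg (by positivity) (G_nonneg _ _ _)) hs]
          congr 1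
          ext n
          rw [ENNReal.ofReal_mul (by positivity)]
      _ = ∑' n : ℤ, ∫⁻ ξ, ENNReal.ofReal (‖c n‖ * K) *
            ENNReal.ofReal (G u₀ u₁ (ξ - ((n : ℝ) * N) • e)) := by
          refine lintegral_tsum fun n => ?_
          refine AEMeasurable.const_mul ?_ _
          exact (hGi.comp_sub_right (((n : ℝ) * N) • e)).aemeasurable.ennreal_ofReal
      _ = ∑' n : ℤ, ENNReal.ofReal (‖c n‖ * K) * ENNReal.ofReal J := by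
          congr 1
          ext n
          rw [lintegral_const_mul' _ _ ENNReal.ofReal_ne_top, hshift]
      _ = ENNReal.ofReal (S * K * J) := by
          rw [ENNReal.tsum_mul_right, ENNReal.ofReal_mul (by positivity), hS, ← tsum_mul_right,
            ENNReal.ofReal_tsum_of_nonneg (fun n => by positivity) (hc.mul_right K)]
  have hI := int_er v₀ v₁ e t
  have hint : ∫ ξ, ‖er v₀ v₁ e t ξ‖ ≤ S * K * J := by
    have h := ofReal_integral_norm_eq_lintegral_enorm hI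
    rw [← h] at hlin
    exact (ENNReal.ofReal_le_ofReal_iff (by positivity)).1 hlin
  have hval : 13 * S * (A0 + A1 + J) * (1 + |t|) / N = S * K * (A0 + A1 + J) := by
    rw [hK]; ring
  rw [hval]
  have h := inv_bounds (er v₀ v₁ e t) (S * K * (A0 + A1 + J)) (by positivity) hI
    (fun ξ => (hb ξ).trans (mul_le_mul_of_nonneg_left (by linarith) (by positivity)))
    (hint.trans (mul_le_mul_of_nonneg_left (by linarith) (by positivity)))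
  simp only [wv_eq]
  exact h

end Pool.Agent.H197.WC
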