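import Mathlib
set_option autoImplicit false
set_option linter.unusedSectionVars false

/-! Limits of series in `L^p`. -/

namespace Pool.Agent.H197.WC

open MeasureTheory Set Filter Topology
open scoped ENNReal NNReal

variable {α : Type*} [MeasurableSpace α] {μ : Measure α}

lemma lim (p : ℝ≥0∞) (hp : 1 ≤ p) (w : ℕ → α → ℂ) (hm : ∀ k, MemLp (w k) p μ) (b : ℝ)
    (hb : 0 ≤ b) (hw : ∀ k : ℕ, eLpNorm (w k) p μ ≤ ENNReal.ofReal (b / 2 ^ k)) :
    ∃ g : α → ℂ, MemLp g p μ ∧ ∀ n : ℕ,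
      eLpNorm (fun x => ∑ k ∈ Finset.range n, w k x - g x) p μ ≤ ENNReal.ofReal (2 * b / 2 ^ n) := by
  have : Fact (1 ≤ p) := ⟨hp⟩
  set P : ℕ → α → ℂ := fun n x => ∑ k ∈ Finset.range n, w k x with hP
  have hPm : ∀ n, MemLp (P n) p μ := fun n => memLp_finsetSum _ fun k _ => hm k
  set S : ℕ → Lp ℂ p μ := fun n => (hPm n).toLp (P n) with hS
  have hd : ∀ n, dist (S n) (S (n + 1)) ≤ 2 * b / 2 / 2 ^ n := by
    intro n
    have h1 : edist (S n) (S (n + 1)) ≤ ENNReal.ofReal (b / 2 ^ n) := by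
      rw [hS]
      simp only
      rw [Lp.edist_toLp_toLp]
      have e : P n - P (n + 1) = -w n := by
        ext x
        simp only [hP, Pi.sub_apply, Finset.sum_range_succ, Pi.neg_apply]
        ring
      rw [e, eLpNorm_neg]
      exact hw n
    rw [edist_dist, ENNReal.ofReal_le_ofReal_iff (by positivity)] at h1
    refine h1.trans (le_of_eq ?_)
    ring
  obtain ⟨a, ha⟩ := cauchySeq_tendsto_of_complete (cauchySeq_of_le_geometric_two hd)
  refine ⟨a, Lp.memLp a, fun n => ?_⟩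
  have h2 := dist_le_of_le_geometric_two_of_tendsto hd ha n
  have h3 : edist (S n) a = eLpNorm (fun x => P n x - a x) p μ := by
    conv_lhs => rw [← Lp.toLp_coeFn a (Lp.memLp a)]
    rw [hS]
    simp only
    rw [Lp.edist_toLp_toLp]
    rfl
  have h4 : (fun x => ∑ k ∈ Finset.range n, w k x - a x) = fun x => P n x - a x := rfl
  rw [h4, ← h3, edist_dist]
  exact ENNReal.ofReal_le_ofReal h2

end Pool.Agent.H197.WC
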