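import Mathlib
import Pool.Agent.H197.WC.Lim
import Pool.Agent.H197.WC.Planch
set_option autoImplicit false
set_option linter.unusedSectionVars false

/-! From Schwartz functions to all `L^p` functions: an abstract iteration. -/

namespace Pool.Agent.H197.WC

open MeasureTheory Set Filter Topology
open scoped ENNReal NNReal SchwartzMap ContDiff

variable {E : Type*} [NormedAddCommGroup E] [InnerProductSpace ℝ E] [FiniteDimensional ℝ E]
  [MeasurableSpace E] [BorelSpace E]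

/-- `B` is measurable and occupies at most `ε` of every set of the family `𝒬`. -/
def Sp (𝒬 : Set (Set E)) (ε : ℝ) (B : Set E) : Prop :=
  MeasurableSet B ∧ ∀ Q ∈ 𝒬, volume (B ∩ Q) ≤ ENNReal.ofReal ε

/-- An additive family of operators which is small after a correction. -/
structure Eng (𝒬 : Set (Set E)) {T : Type} (Er : T → 𝓢(E, ℂ) → 𝓢(E, ℂ) → E → ℂ) (W : T → ℝ) :
    Prop where
  nn : ∀ t, 0 ≤ W t
  add : ∀ t u₀ u₁ v₀ v₁ x, Er t (u₀ + v₀) (u₁ + v₁) x = Er t u₀ u₁ x + Er t v₀ v₁ x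
  meas : ∀ t u₀ u₁, AEStronglyMeasurable (Er t u₀ u₁) (volume : Measure E)
  corr : ∀ (u₀ u₁ : 𝓢(E, ℂ)) (ε η : ℝ), 0 < ε → ε ≤ 1 → 0 < η → ∃ (v₀ v₁ : 𝓢(E, ℂ)) (B : Set E),
    Sp 𝒬 ε B ∧ (∀ x, x ∉ B → v₀ x = u₀ x ∧ v₁ x = u₁ x) ∧
    (∀ x, ‖v₀ x‖ ≤ 2 / ε * ‖u₀ x‖ ∧ ‖v₁ x‖ ≤ 2 / ε * ‖u₁ x‖) ∧
    ∀ t, (∀ x, ‖Er t v₀ v₁ x‖ ≤ η * W t) ∧
      eLpNorm (Er t v₀ v₁) 2 volume ≤ ENNReal.ofReal (η * W t)

lemma Eng.zero {𝒬 : Set (Set E)} {T : Type} {Er : T → 𝓢(E, ℂ) → 𝓢(E, ℂ) → E → ℂ} {W : T → ℝ}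
    (h : Eng 𝒬 Er W) (t : T) (x : E) : Er t 0 0 x = 0 := by
  have := h.add t 0 0 0 0 x
  rw [add_zero] at this
  exact left_eq_add.1 this

lemma Eng.sum {𝒬 : Set (Set E)} {T : Type} {Er : T → 𝓢(E, ℂ) → 𝓢(E, ℂ) → E → ℂ} {W : T → ℝ}
    (h : Eng 𝒬 Er W) (t : T) (v w : ℕ → 𝓢(E, ℂ)) (n : ℕ) (x : E) :
    Er t (∑ k ∈ Finset.range n, v k) (∑ k ∈ Finset.range n, w k) x
      = ∑ k ∈ Finset.range n, Er t (v k) (w k) x := by
  induction n with
  | zero => simp [h.zero]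
  | succ n ih => rw [Finset.sum_range_succ, Finset.sum_range_succ, Finset.sum_range_succ, h.add, ih]

lemma approx (p : ℝ≥0∞) (hp : 1 ≤ p) (hp' : p ≠ ⊤) (f : E → ℂ) (hf : MemLp f p) (δ : ℝ)
    (hδ : 0 < δ) : ∃ h : 𝓢(E, ℂ), eLpNorm (fun x => f x - h x) p volume ≤ ENNReal.ofReal δ := by
  obtain ⟨g, h1, h2, h3⟩ := hf.exist_eLpNorm_sub_le hp' hp hδ
  refine ⟨h1.toSchwartzMap h2, ?_⟩
  have : (fun x => f x - (h1.toSchwartzMap h2) x) = f - g := by
    ext x; rfl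
  rw [this]
  exact h3

lemma sum_apply (v : ℕ → 𝓢(E, ℂ)) (n : ℕ) (x : E) :
    (∑ k ∈ Finset.range n, v k) x = ∑ k ∈ Finset.range n, v k x := by
  induction n with
  | zero => simp
  | succ n ih => rw [Finset.sum_range_succ, Finset.sum_range_succ, add_apply, ih]

/-- The telescoping differences of a sequence. -/
noncomputable def df (H : ℕ → 𝓢(E, ℂ)) : ℕ → 𝓢(E, ℂ)
  | 0 => H 0
  | k + 1 => H (k + 1) - H k

lemma df_sum (H : ℕ → 𝓢(E, ℂ)) (n : ℕ) (x : E) :
    ∑ k ∈ Finset.range (n + 1), df H k x = H n x := by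
  induction n with
  | zero => simp [df]
  | succ n ih =>
    rw [Finset.sum_range_succ, ih]
    simp [df]

/-- One function: the limit of the corrected series. -/
lemma one (p : ℝ≥0∞) (hp : 1 ≤ p) (f : E → ℂ) (hf : MemLp f p)
    (ε η : ℝ) (hε : 0 < ε) (hη : 0 < η) (H v : ℕ → 𝓢(E, ℂ))
    (hH : ∀ k : ℕ, eLpNorm (fun x => f x - H k x) p volume ≤ ENNReal.ofReal (ε * η / 100 / 8 ^ k))
    (hv : ∀ (k : ℕ) x, ‖v k x‖ ≤ 2 / (ε / 2 ^ (k + 1)) * ‖df H k x‖) (A : Set E)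
    (hA : MeasurableSet A) (hvA : ∀ (k : ℕ), ∀ x ∈ A, v k x = df H k x) :
    ∃ g : E → ℂ, MemLp g p volume ∧
      eLpNorm g p volume ≤ ENNReal.ofReal (4 / ε) * eLpNorm f p volume + ENNReal.ofReal η ∧
      (∀ᵐ x, x ∈ A → g x = f x) ∧
      ∀ n : ℕ, eLpNorm (fun x => (∑ k ∈ Finset.range (n + 1), v k) x - g x) p volume
        ≤ ENNReal.ofReal (η / 2 ^ n) := by
  have hvm : ∀ k, MemLp (v k) p volume := fun k => (v k).memLp p
  have hmf := hf.1
  -- the sizes of the pieces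
  have hdf : ∀ k : ℕ, eLpNorm (df H (k + 1)) p volume ≤ ENNReal.ofReal (2 * (ε * η / 100 / 8 ^ k)) := by
    intro k
    have e : (df H (k + 1) : E → ℂ) = (fun x => f x - H k x) - (fun x => f x - H (k + 1) x) := by
      ext x; simp [df]
    rw [e]
    refine (eLpNorm_sub_le (hmf.sub (H k).continuous.aestronglyMeasurable)
      (hmf.sub (H (k + 1)).continuous.aestronglyMeasurable) hp).trans ?_
    refine (add_le_add (hH k) (hH (k + 1))).trans ?_
    rw [← ENNReal.ofReal_add (by positivity) (by positivity)]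
    refine ENNReal.ofReal_le_ofReal ?_
    have : ε * η / 100 / 8 ^ (k + 1) ≤ ε * η / 100 / 8 ^ k := by
      gcongr
      · norm_num
      · omega
    linarith
  have hvn : ∀ k : ℕ, eLpNorm (v k) p volume
      ≤ ENNReal.ofReal (2 / (ε / 2 ^ (k + 1))) * eLpNorm (df H k) p volume := by
    intro k
    exact eLpNorm_le_mul_eLpNorm_of_ae_le_mul (ae_of_all _ (hv k)) p
  have hw : ∀ k : ℕ, eLpNorm (v (k + 1)) p volume ≤ ENNReal.ofReal (η / 5 / 2 ^ k) := by
    intro k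
    refine (hvn (k + 1)).trans ?_
    refine (mul_le_mul_right (hdf k) _).trans ?_
    rw [← ENNReal.ofReal_mul (by positivity)]
    refine ENNReal.ofReal_le_ofReal ?_
    have h8 : (8 : ℝ) ^ k = 2 ^ k * 2 ^ k * 2 ^ k := by
      rw [← mul_pow, ← mul_pow]; norm_num
    have h1 : (1 : ℝ) ≤ 2 ^ k := one_le_pow₀ (by norm_num)
    rw [h8]
    have e : 2 / (ε / 2 ^ (k + 1 + 1)) * (2 * (ε * η / 100 / (2 ^ k * 2 ^ k * 2 ^ k)))
        = 16 / 100 * η / (2 ^ k * 2 ^ k) := by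
      field_simp
      ring
    rw [e, div_le_div_iff₀ (by positivity) (by positivity)]
    have h2 : (0 : ℝ) < 2 ^ k := by positivity
    have : 16 / 100 * η * 2 ^ k ≤ η / 5 * 2 ^ k := by nlinarith
    nlinarith [mul_le_mul_of_nonneg_left h1 (show 0 ≤ η / 5 * 2 ^ k by positivity)]
  obtain ⟨g, hg, hlim⟩ := lim p hp (fun k => v (k + 1)) (fun k => hvm (k + 1)) (η / 5)
    (by positivity) hw
  have hg0 : eLpNorm g p volume ≤ ENNReal.ofReal (2 * (η / 5)) := by
    have := hlim 0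
    simp only [Finset.range_zero, Finset.sum_empty, zero_sub, pow_zero, div_one] at this
    have e : (fun x => -g x) = -g := rfl
    rwa [e, eLpNorm_neg] at this
  set G : E → ℂ := fun x => v 0 x + g x with hG
  have hGm : MemLp G p volume := (hvm 0).add hg
  have hv0 : eLpNorm (v 0) p volume ≤ ENNReal.ofReal (4 / ε) * eLpNorm f p volume +
      ENNReal.ofReal (η / 25) := by
    have h1 := hvn 0
    have h2 : eLpNorm (df H 0) p volume ≤ eLpNorm f p volume + ENNReal.ofReal (ε * η / 100) := by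
      have e : (df H 0 : E → ℂ) = f - (fun x => f x - H 0 x) := by
        ext x; simp [df]
      rw [e]
      refine (eLpNorm_sub_le hmf (hmf.sub (H 0).continuous.aestronglyMeasurable) hp).trans ?_
      have := hH 0
      rw [pow_zero, div_one] at this
      exact add_le_add le_rfl this
    have e3 : 2 / (ε / 2 ^ (0 + 1)) = 4 / ε := by field_simp; ring
    rw [e3] at h1
    refine h1.trans ((mul_le_mul_right h2 _).trans ?_)
    rw [mul_add, ← ENNReal.ofReal_mul (by positivity)]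
    gcongr
    refine le_of_eq ?_
    field_simp
    ring
  have hconv : ∀ n : ℕ, eLpNorm (fun x => (∑ k ∈ Finset.range (n + 1), v k) x - G x) p volume
      ≤ ENNReal.ofReal (η / 2 ^ n) := by
    intro n
    have e : (fun x => (∑ k ∈ Finset.range (n + 1), v k) x - G x)
        = fun x => ∑ k ∈ Finset.range n, v (k + 1) x - g x := by
      ext x
      rw [sum_apply, Finset.sum_range_succ']
      simp only [hG]
      ring
    rw [e]
    refine (hlim n).trans (ENNReal.ofReal_le_ofReal ?_)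
    gcongr
    linarith
  refine ⟨G, hGm, ?_, ?_, hconv⟩
  · refine (eLpNorm_add_le (hvm 0).1 hg.1 hp).trans ?_
    refine (add_le_add hv0 hg0).trans ?_
    rw [add_assoc, ← ENNReal.ofReal_add (by positivity) (by positivity)]
    gcongr
    linarith
  · have key : ∀ n : ℕ, eLpNorm (fun x => G x - f x) p (volume.restrict A)
        ≤ ENNReal.ofReal (η / 2 ^ n + ε * η / 100 / 8 ^ n) := by
      intro n
      have e : (fun x => G x - f x) = (fun x => (G x - (∑ k ∈ Finset.range (n + 1), v k) x)) +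
          fun x => ((∑ k ∈ Finset.range (n + 1), v k) x - f x) := by
        ext x; simp
      have m1 : AEStronglyMeasurable (fun x => (G x - (∑ k ∈ Finset.range (n + 1), v k) x)) volume :=
        hGm.1.sub (SchwartzMap.continuous _).aestronglyMeasurable
      have m2 : AEStronglyMeasurable (fun x => ((∑ k ∈ Finset.range (n + 1), v k) x - f x)) volume :=
        (SchwartzMap.continuous _).aestronglyMeasurable.sub hmf
      rw [e]
      refine (eLpNorm_add_le m1.restrict m2.restrict hp).trans ?_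
      rw [ENNReal.ofReal_add (by positivity) (by positivity)]
      refine add_le_add ?_ ?_
      · refine (eLpNorm_mono_measure _ Measure.restrict_le_self).trans ?_
        refine le_trans (le_of_eq ?_) (hconv n)
        rw [← eLpNorm_neg]
        congr 1
        ext x; simp
      · have e2 : eLpNorm (fun x => ((∑ k ∈ Finset.range (n + 1), v k) x - f x)) p
            (volume.restrict A) = eLpNorm (fun x => H n x - f x) p (volume.restrict A) := by
          refine eLpNorm_congr_ae ?_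
          filter_upwards [ae_restrict_mem hA] with x hx
          rw [sum_apply, ← df_sum H n x]
          congr 1
          exact Finset.sum_congr rfl fun k _ => hvA k x hx
        rw [e2]
        refine (eLpNorm_mono_measure _ Measure.restrict_le_self).trans ?_
        refine le_trans (le_of_eq ?_) (hH n)
        rw [← eLpNorm_neg]
        congr 1
        ext x; simp
    have hz : eLpNorm (fun x => G x - f x) p (volume.restrict A) = 0 := by
      have ht : Tendsto (fun n : ℕ => ENNReal.ofReal (η / 2 ^ n + ε * η / 100 / 8 ^ n)) atTop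
          (𝓝 0) := by
        rw [← ENNReal.ofReal_zero]
        refine ENNReal.tendsto_ofReal ?_
        have t1 : Tendsto (fun n : ℕ => η / 2 ^ n) atTop (𝓝 0) := by
          refine Tendsto.div_atTop tendsto_const_nhds ?_
          exact tendsto_pow_atTop_atTop_of_one_lt (by norm_num)
        have t2 : Tendsto (fun n : ℕ => ε * η / 100 / 8 ^ n) atTop (𝓝 0) := by
          refine Tendsto.div_atTop tendsto_const_nhds ?_
          exact tendsto_pow_atTop_atTop_of_one_lt (by norm_num)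
        simpa using t1.add t2
      exact le_antisymm (ge_of_tendsto' ht key) (zero_le)
    have hp0 : p ≠ 0 := (lt_of_lt_of_le one_pos hp).ne'
    have m3 : AEStronglyMeasurable (fun x => G x - f x) (volume.restrict A) :=
      (hGm.1.sub hmf).restrict
    rw [eLpNorm_eq_zero_iff m3 hp0] at hz
    rw [Filter.EventuallyEq, ae_restrict_iff' hA] at hz
    filter_upwards [hz] with x hx hxA
    have := hx hxA
    simpa [sub_eq_zero] using this

theorem iter {𝒬 : Set (Set E)} {T : Type} {Er : T → 𝓢(E, ℂ) → 𝓢(E, ℂ) → E → ℂ} {W : T → ℝ}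
    (h : Eng 𝒬 Er W) (p : ℝ≥0∞) (hp : 2 ≤ p) (hp' : p ≠ ⊤) (f₀ f₁ : E → ℂ) (hf₀ : MemLp f₀ p)
    (hf₁ : MemLp f₁ p) (ε η : ℝ) (hε : 0 < ε) (hε1 : ε ≤ 1) (hη : 0 < η) :
    ∃ (g₀ g₁ : E → ℂ) (B : Set E) (V₀ V₁ : ℕ → 𝓢(E, ℂ)) (R : T → E → ℂ),
      MemLp g₀ p volume ∧ MemLp g₁ p volume ∧ Sp 𝒬 ε B ∧
      (∀ x, x ∉ B → g₀ x = f₀ x ∧ g₁ x = f₁ x) ∧
      eLpNorm g₀ p volume ≤ ENNReal.ofReal (4 / ε) * eLpNorm f₀ p volume + ENNReal.ofReal η ∧
      eLpNorm g₁ p volume ≤ ENNReal.ofReal (4 / ε) * eLpNorm f₁ p volume + ENNReal.ofReal η ∧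
      (∀ n : ℕ, eLpNorm (fun x => V₀ n x - g₀ x) p volume ≤ ENNReal.ofReal (η / 2 ^ n) ∧
        eLpNorm (fun x => V₁ n x - g₁ x) p volume ≤ ENNReal.ofReal (η / 2 ^ n) ∧
        ∀ t, eLpNorm (fun x => Er t (V₀ n) (V₁ n) x - R t x) p volume
          ≤ ENNReal.ofReal (η * W t / 2 ^ n)) ∧
      ∀ t, MemLp (R t) p volume ∧ eLpNorm (R t) p volume ≤ ENNReal.ofReal (η * W t) := by
  have hp1 : 1 ≤ p := le_trans (by norm_num) hp
  have c0 : ∀ k : ℕ, ∃ g : 𝓢(E, ℂ), eLpNorm (fun x => f₀ x - g x) p volume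
      ≤ ENNReal.ofReal (ε * η / 100 / 8 ^ k) := fun k =>
    approx p hp1 hp' f₀ hf₀ _ (by positivity)
  have c1 : ∀ k : ℕ, ∃ g : 𝓢(E, ℂ), eLpNorm (fun x => f₁ x - g x) p volume
      ≤ ENNReal.ofReal (ε * η / 100 / 8 ^ k) := fun k =>
    approx p hp1 hp' f₁ hf₁ _ (by positivity)
  choose H₀ hH₀ using c0
  choose H₁ hH₁ using c1
  have hεk : ∀ k : ℕ, 0 < ε / 2 ^ (k + 1) ∧ ε / 2 ^ (k + 1) ≤ 1 := fun k =>
    ⟨by positivity, (div_le_self hε.le (one_le_pow₀ (by norm_num))).trans hε1⟩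
  have hc : ∀ k : ℕ, ∃ (v₀ v₁ : 𝓢(E, ℂ)) (B : Set E),
    Sp 𝒬 (ε / 2 ^ (k + 1)) B ∧ (∀ x, x ∉ B → v₀ x = df H₀ k x ∧ v₁ x = df H₁ k x) ∧
    (∀ x, ‖v₀ x‖ ≤ 2 / (ε / 2 ^ (k + 1)) * ‖df H₀ k x‖ ∧
      ‖v₁ x‖ ≤ 2 / (ε / 2 ^ (k + 1)) * ‖df H₁ k x‖) ∧
    ∀ t, (∀ x, ‖Er t v₀ v₁ x‖ ≤ η / 2 ^ (k + 1) * W t) ∧
      eLpNorm (Er t v₀ v₁) 2 volume ≤ ENNReal.ofReal (η / 2 ^ (k + 1) * W t) := fun k =>
    h.corr (df H₀ k) (df H₁ k) _ _ (hεk k).1 (hεk k).2 (by positivity)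
  choose v₀ v₁ B hB heq hbd her using hc
  set U : Set E := ⋃ k, B k with hU
  have hUm : MeasurableSet U := MeasurableSet.iUnion fun k => (hB k).1
  have hUs : ∀ Q ∈ 𝒬, volume (U ∩ Q) ≤ ENNReal.ofReal ε := by
    intro Q hQ
    rw [hU, iUnion_inter]
    refine (measure_iUnion_le _).trans ?_
    refine (ENNReal.tsum_le_tsum fun k => (hB k).2 Q hQ).trans ?_
    have hs : HasSum (fun k : ℕ => ε / 2 ^ (k + 1)) ε := by
      have e : (fun k : ℕ => ε / 2 ^ (k + 1)) = fun n => ε / 2 / 2 ^ n := by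
        ext k
        rw [pow_succ]
        field_simp
      rw [e]
      exact hasSum_geometric_two' ε
    rw [← ENNReal.ofReal_tsum_of_nonneg (fun k => (hεk k).1.le) hs.summable, hs.tsum_eq]
  have hA : MeasurableSet Uᶜ := hUm.compl
  have hnot : ∀ x ∈ Uᶜ, ∀ k, x ∉ B k := fun x hx k hk => hx (mem_iUnion.2 ⟨k, hk⟩)
  obtain ⟨g₀, hg₀, hn₀, he₀, hl₀⟩ := one p hp1 f₀ hf₀ ε η hε hη H₀ v₀ hH₀
    (fun k x => (hbd k x).1) Uᶜ hA fun k x hx => (heq k x (hnot x hx k)).1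
  obtain ⟨g₁, hg₁, hn₁, he₁, hl₁⟩ := one p hp1 f₁ hf₁ ε η hε hη H₁ v₁ hH₁
    (fun k x => (hbd k x).2) Uᶜ hA fun k x hx => (heq k x (hnot x hx k)).2
  -- the errors
  have hRk : ∀ t (k : ℕ), eLpNorm (Er t (v₀ k) (v₁ k)) p volume
      ≤ ENNReal.ofReal (η * W t / 2 / 2 ^ k) := by
    intro t k
    have hW := h.nn t
    refine (interp _ _ (by positivity) (her k t).1 (her k t).2 p hp).trans (le_of_eq ?_)
    congr 1
    rw [pow_succ]
    field_simp
  have hRm : ∀ t (k : ℕ), MemLp (Er t (v₀ k) (v₁ k)) p volume := fun t k =>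
    ⟨h.meas t _ _, (hRk t k).trans_lt ENNReal.ofReal_lt_top⟩
  have hR : ∀ t, ∃ g : E → ℂ, MemLp g p volume ∧ ∀ n : ℕ,
      eLpNorm (fun x => ∑ k ∈ Finset.range n, Er t (v₀ k) (v₁ k) x - g x) p volume
        ≤ ENNReal.ofReal (2 * (η * W t / 2) / 2 ^ n) := fun t =>
    lim p hp1 (fun k => Er t (v₀ k) (v₁ k)) (hRm t) (η * W t / 2)
      (by have := h.nn t; positivity) (hRk t)
  choose R hRmem hRlim using hR
  -- the null set
  obtain ⟨Z, hZs, hZm, hZ0⟩ := exists_measurable_superset_of_null (ae_iff.1 (he₀.and he₁))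
  refine ⟨g₀, g₁, U ∪ Z, fun n => ∑ k ∈ Finset.range (n + 1), v₀ k,
    fun n => ∑ k ∈ Finset.range (n + 1), v₁ k, R, hg₀, hg₁, ⟨hUm.union hZm, ?_⟩, ?_, hn₀, hn₁,
    fun n => ⟨hl₀ n, hl₁ n, fun t => ?_⟩, fun t => ⟨hRmem t, ?_⟩⟩
  · intro Q hQ
    rw [union_inter_distrib_right]
    refine (measure_union_le _ _).trans ?_
    have : volume (Z ∩ Q) = 0 := measure_mono_null inter_subset_left hZ0
    rw [this, add_zero]
    exact hUs Q hQ
  · intro x hx
    rw [mem_union, not_or] at hx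
    have h1 : x ∉ {a | ¬((a ∈ Uᶜ → g₀ a = f₀ a) ∧ (a ∈ Uᶜ → g₁ a = f₁ a))} := fun h2 =>
      hx.2 (hZs h2)
    simp only [mem_ofPred_eq, not_not] at h1
    exact ⟨h1.1 hx.1, h1.2 hx.1⟩
  · have hW := h.nn t
    have e : (fun x => Er t (∑ k ∈ Finset.range (n + 1), v₀ k) (∑ k ∈ Finset.range (n + 1), v₁ k) x
        - R t x) = fun x => ∑ k ∈ Finset.range (n + 1), Er t (v₀ k) (v₁ k) x - R t x := by
      ext x
      rw [h.sum]
    rw [e]
    refine (hRlim t (n + 1)).trans (ENNReal.ofReal_le_ofReal ?_)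
    rw [show 2 * (η * W t / 2) = η * W t by ring]
    gcongr
    · norm_num
    · omega
  · have := hRlim t 0
    simp only [Finset.range_zero, Finset.sum_empty, zero_sub, pow_zero, div_one] at this
    have e : (fun x => -R t x) = -R t := rfl
    rw [e, eLpNorm_neg] at this
    refine this.trans (le_of_eq ?_)
    congr 1
    ring

end Pool.Agent.H197.WC
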