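import Mathlib
set_option autoImplicit false
set_option linter.unusedSectionVars false

/-! Truncation of measurable functions. -/

namespace Pool.Agent.H197.WC

open MeasureTheory Set Filter Topology
open scoped ENNReal NNReal

variable {α : Type*} [MeasurableSpace α] {μ : Measure α}

lemma trunc (p : ℝ≥0∞) (f₀ f₁ : α → ℂ) (h0 : Measurable f₀) (h1 : Measurable f₁)
    (hfin : μ {x | f₀ x ≠ 0 ∨ f₁ x ≠ 0} < ⊤) (ε : ℝ) (hε : 0 < ε) :
    ∃ (f₀' f₁' : α → ℂ) (D : Set α), MemLp f₀' p μ ∧ MemLp f₁' p μ ∧ MeasurableSet D ∧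
      μ D ≤ ENNReal.ofReal ε ∧ ∀ x, x ∉ D → f₀' x = f₀ x ∧ f₁' x = f₁ x := by
  set D : ℕ → Set α := fun M => {x | (M : ℝ) < ‖f₀ x‖ ∨ (M : ℝ) < ‖f₁ x‖} with hD
  have hDm : ∀ M, MeasurableSet (D M) := fun M =>
    (measurableSet_lt measurable_const h0.norm).union (measurableSet_lt measurable_const h1.norm)
  have hsub : ∀ M, D M ⊆ {x | f₀ x ≠ 0 ∨ f₁ x ≠ 0} := by
    intro M x hx
    rcases hx with hx | hx
    · left; intro h; rw [h, norm_zero] at hx
      exact absurd hx (not_lt.2 (Nat.cast_nonneg M))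
    · right; intro h; rw [h, norm_zero] at hx
      exact absurd hx (not_lt.2 (Nat.cast_nonneg M))
  have hanti : Antitone D := by
    intro M N hMN x hx
    have : (M : ℝ) ≤ N := by exact_mod_cast hMN
    rcases hx with hx | hx
    · left; exact this.trans_lt hx
    · right; exact this.trans_lt hx
  have hemp : ⋂ M, D M = ∅ := by
    ext x
    simp only [mem_iInter, mem_empty_iff_false, iff_false, not_forall]
    obtain ⟨M, hM⟩ := exists_nat_ge (max ‖f₀ x‖ ‖f₁ x‖)
    refine ⟨M, ?_⟩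
    rintro (h | h)
    · linarith [le_max_left ‖f₀ x‖ ‖f₁ x‖]
    · linarith [le_max_right ‖f₀ x‖ ‖f₁ x‖]
  have hlim := tendsto_measure_iInter_atTop (μ := μ) (fun M => (hDm M).nullMeasurableSet) hanti
    ⟨0, ((measure_mono (hsub 0)).trans_lt hfin).ne⟩
  rw [hemp, measure_empty] at hlim
  obtain ⟨M, hM⟩ := ((hlim.eventually (ge_mem_nhds (ENNReal.ofReal_pos.2 hε)))).exists
  have key : ∀ f : α → ℂ, Measurable f → {x | f x ≠ 0} ⊆ {x | f₀ x ≠ 0 ∨ f₁ x ≠ 0} →
      MemLp ({x | ‖f x‖ ≤ (M : ℝ)}.indicator f) p μ := by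
    intro f hf hs
    have hA : MeasurableSet {x | ‖f x‖ ≤ (M : ℝ)} := measurableSet_le hf.norm measurable_const
    have hS : MeasurableSet {x | f x ≠ 0} := (measurableSet_eq_fun hf measurable_const).compl
    have e : {x | ‖f x‖ ≤ (M : ℝ)}.indicator f = {x | f x ≠ 0}.indicator
        ({x | ‖f x‖ ≤ (M : ℝ)}.indicator f) := by
      ext x
      by_cases h : f x = 0
      · simp [Set.indicator, h]
      · simp [Set.indicator, h]
    rw [e, memLp_indicator_iff_restrict hS]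
    have : IsFiniteMeasure (μ.restrict {x | f x ≠ 0}) :=
      ⟨by rw [Measure.restrict_apply_univ]; exact (measure_mono hs).trans_lt hfin⟩
    refine MemLp.of_bound (hf.indicator hA).aestronglyMeasurable M (ae_of_all _ fun x => ?_)
    by_cases h : ‖f x‖ ≤ (M : ℝ)
    · simp [Set.indicator, h]
    · simp [Set.indicator, h]
  refine ⟨{x | ‖f₀ x‖ ≤ (M : ℝ)}.indicator f₀, {x | ‖f₁ x‖ ≤ (M : ℝ)}.indicator f₁, D M,
    key f₀ h0 (fun x hx => Or.inl hx), key f₁ h1 (fun x hx => Or.inr hx), hDm M, hM, ?_⟩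
  intro x hx
  simp only [hD, mem_ofPred_eq, not_or, not_lt] at hx
  simp [Set.indicator, hx.1, hx.2]

end Pool.Agent.H197.WC
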