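import Mathlib
import Pool.Agent.H197.WC.Meas
set_option autoImplicit false
set_option linter.unusedSectionVars false

/-! Approximation of measurable functions off small sets, smooth truncation. -/

namespace Pool.Agent.H197.WC

open MeasureTheory Set Filter Topology
open scoped ENNReal NNReal SchwartzMap ContDiff

variable {E : Type*} [NormedAddCommGroup E] [InnerProductSpace ℝ E] [FiniteDimensional ℝ E]
  [MeasurableSpace E] [BorelSpace E]

lemma tcut (h : E → ℂ) (hs : ContDiff ℝ ∞ h) (hc : HasCompactSupport h) (θ : E → ℝ)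
    (hθ : ContDiff ℝ ∞ θ) (δ : ℝ) (hδ : 0 < δ) :
    ∃ g : 𝓢(E, ℂ), (∀ x, ‖g x‖ ≤ ‖h x‖) ∧ (∀ x, θ x = 1 → ‖g x‖ ≤ 2 * δ) ∧
      ∀ x, ‖h x‖ ^ 2 * θ x ≤ δ ^ 2 → g x = h x := by
  set c : E → ℝ := fun x => Real.smoothTransition ((4 - ‖h x‖ ^ 2 * θ x / δ ^ 2) / 3) with hcdef
  have hcs : ContDiff ℝ ∞ c := by
    have h1 : ContDiff ℝ ∞ fun x => ‖h x‖ ^ 2 := hs.norm_sq ℝ
    have h2 : ContDiff ℝ ∞ fun x => (4 - ‖h x‖ ^ 2 * θ x / δ ^ 2) / 3 :=
      (contDiff_const.sub ((h1.mul hθ).div_const _)).div_const _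
    exact Real.smoothTransition.contDiff.comp h2
  have hg : ContDiff ℝ ∞ fun x => c x • h x := hcs.smul hs
  have hgc : HasCompactSupport fun x => c x • h x := by
    refine hc.mono fun x hx => ?_
    intro h0
    exact hx (by simp [h0])
  have c0 : ∀ x, 0 ≤ c x := fun x => Real.smoothTransition.nonneg _
  have c1 : ∀ x, c x ≤ 1 := fun x => Real.smoothTransition.le_one _
  refine ⟨hgc.toSchwartzMap hg, fun x => ?_, fun x hx => ?_, fun x hx => ?_⟩
  · change ‖c x • h x‖ ≤ _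
    rw [norm_smul, Real.norm_eq_abs, abs_of_nonneg (c0 x)]
    exact mul_le_of_le_one_left (norm_nonneg _) (c1 x)
  · change ‖c x • h x‖ ≤ _
    rw [norm_smul, Real.norm_eq_abs, abs_of_nonneg (c0 x)]
    by_cases h2 : ‖h x‖ ≤ 2 * δ
    · exact (mul_le_of_le_one_left (norm_nonneg _) (c1 x)).trans h2
    · push Not at h2
      have h3 : c x = 0 := by
        apply Real.smoothTransition.zero_of_nonpos
        rw [hx, mul_one]
        have h4 : 4 ≤ ‖h x‖ ^ 2 / δ ^ 2 := by
          rw [le_div_iff₀ (by positivity)]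
          nlinarith
        linarith
      rw [h3, zero_mul]
      positivity
  · change c x • h x = _
    have h3 : c x = 1 := by
      apply Real.smoothTransition.one_of_one_le
      have h4 : ‖h x‖ ^ 2 * θ x / δ ^ 2 ≤ 1 := by
        rw [div_le_one (by positivity)]
        exact hx
      linarith
    rw [h3, one_smul]

lemma apxP (p : ℝ≥0∞) (hp : 1 ≤ p) (hp' : p ≠ ⊤) (f : E → ℂ) (hf : MemLp f p volume)
    (δ δ' κ : ℝ) (hδ : 0 < δ) (hδ' : 0 < δ') (hκ : 0 < κ) :
    ∃ H : E → ℂ, ContDiff ℝ ∞ H ∧ HasCompactSupport H ∧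
      eLpNorm (fun x => f x - H x) p volume ≤ ENNReal.ofReal δ' ∧
      ∃ D : Set E, MeasurableSet D ∧ volume D ≤ ENNReal.ofReal κ ∧ ∀ x, x ∉ D → ‖f x - H x‖ ≤ δ := by
  have hp0 : p ≠ 0 := (lt_of_lt_of_le one_pos hp).ne'
  have hpr : 0 < p.toReal := ENNReal.toReal_pos hp0 hp'
  set τ : ℝ := min δ' (δ * κ ^ (1 / p.toReal)) with hτ
  have hτ0 : 0 < τ := lt_min hδ' (mul_pos hδ (Real.rpow_pos_of_pos hκ _))
  obtain ⟨H, h1, h2, h3⟩ := hf.exist_eLpNorm_sub_le hp' hp hτ0
  have h3' : eLpNorm (fun x => f x - H x) p volume ≤ ENNReal.ofReal τ := h3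
  have hm : AEStronglyMeasurable (fun x => f x - H x) volume :=
    hf.1.sub h2.continuous.aestronglyMeasurable
  refine ⟨H, h2, h1, h3'.trans (ENNReal.ofReal_le_ofReal (min_le_left _ _)),
    toMeasurable volume {x | ENNReal.ofReal δ ≤ ‖f x - H x‖ₑ}, measurableSet_toMeasurable _ _, ?_, ?_⟩
  · rw [measure_toMeasurable]
    refine (meas_ge_le_mul_pow_eLpNorm_enorm volume hp0 hp' hm (ENNReal.ofReal_pos.2 hδ).ne'
      (fun h => absurd h ENNReal.ofReal_ne_top)).trans ?_
    calc (ENNReal.ofReal δ)⁻¹ ^ p.toReal * eLpNorm (fun x => f x - H x) p volume ^ p.toReal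
        ≤ (ENNReal.ofReal δ)⁻¹ ^ p.toReal *
          ENNReal.ofReal (δ * κ ^ (1 / p.toReal)) ^ p.toReal := by
          gcongr
          exact h3'.trans (ENNReal.ofReal_le_ofReal (min_le_right _ _))
      _ = ENNReal.ofReal κ := by
          rw [← ENNReal.mul_rpow_of_nonneg _ _ hpr.le, ENNReal.ofReal_mul hδ.le, ← mul_assoc,
            ENNReal.inv_mul_cancel (ENNReal.ofReal_pos.2 hδ).ne' ENNReal.ofReal_ne_top, one_mul,
            ENNReal.ofReal_rpow_of_nonneg (by positivity) hpr.le, ← Real.rpow_mul hκ.le]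
          rw [one_div, inv_mul_cancel₀ hpr.ne', Real.rpow_one]
  · intro x hx
    have h4 : x ∉ {x | ENNReal.ofReal δ ≤ ‖f x - H x‖ₑ} := fun h => hx (subset_toMeasurable _ _ h)
    simp only [mem_ofPred_eq, not_le] at h4
    rw [← ofReal_norm, ENNReal.ofReal_lt_ofReal_iff hδ] at h4
    exact h4.le

lemma apxA (f : E → ℂ) (hf : Measurable f) (r δ κ : ℝ) (hδ : 0 < δ) (hκ : 0 < κ) :
    ∃ H : E → ℂ, ContDiff ℝ ∞ H ∧ HasCompactSupport H ∧
      ∃ D : Set E, MeasurableSet D ∧ volume D ≤ ENNReal.ofReal κ ∧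
        ∀ x, ‖x‖ ≤ r → x ∉ D → ‖f x - H x‖ ≤ δ := by
  set g : E → ℂ := (Metric.closedBall (0 : E) r).indicator f with hg
  have hgm : Measurable g := hf.indicator Metric.isClosed_closedBall.measurableSet
  have hfin : volume {x | g x ≠ 0 ∨ g x ≠ 0} < ⊤ := by
    refine (measure_mono ?_).trans_lt (measure_closedBall_lt_top (x := (0 : E)) (r := r))
    intro x hx
    by_contra h
    have h0 : g x = 0 := by rw [hg, Set.indicator_of_notMem h]
    rcases hx with hx | hx <;> exact hx h0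
  obtain ⟨f', f'', D, m, -, hDm, hDv, hD⟩ := trunc (μ := (volume : Measure E)) 1 g g hgm hgm hfin
    (κ / 2) (by linarith)
  obtain ⟨H, h1, h2, -, D', hDm', hDv', hD'⟩ := apxP 1 le_rfl (by norm_num) f' m δ 1 (κ / 2) hδ
    one_pos (by linarith)
  refine ⟨H, h1, h2, D ∪ D', hDm.union hDm', ?_, ?_⟩
  · refine (measure_union_le _ _).trans ((add_le_add hDv hDv').trans ?_)
    rw [← ENNReal.ofReal_add (by linarith) (by linarith)]
    exact ENNReal.ofReal_le_ofReal (by linarith)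
  · intro x hx hxD
    rw [mem_union, not_or] at hxD
    have h3 := hD' x hxD.2
    rw [(hD x hxD.1).1] at h3
    have h4 : g x = f x := by
      rw [hg, Set.indicator_of_mem]
      simpa using hx
    rwa [h4] at h3

end Pool.Agent.H197.WC
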