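import Mathlib
import Pool.Agent.H197.WC.Trunc
set_option autoImplicit false
set_option linter.unusedSectionVars false

/-! Series of Schwartz functions which converge to a given measurable function off a small set. -/

namespace Pool.Agent.H197.WC

open MeasureTheory Set Filter Topology
open scoped ENNReal NNReal SchwartzMap ContDiff

variable {E : Type*} [NormedAddCommGroup E] [InnerProductSpace ℝ E] [FiniteDimensional ℝ E]
  [MeasurableSpace E] [BorelSpace E]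

lemma schG (f : E → ℂ) (H : ℕ → E → ℂ) (hs : ∀ k, ContDiff ℝ ∞ (H k))
    (hc : ∀ k, HasCompactSupport (H k)) (δ : ℕ → ℝ) (hδ : ∀ k, 0 < δ k)
    (anti : ∀ k, δ (k + 1) ≤ δ k) (hδ0 : Tendsto δ atTop (𝓝 0)) (A : ℕ → Set E) (hA : Monotone A)
    (hAU : ∀ x, ∃ k, x ∈ A k) (θ : ℕ → E → ℝ) (hθ : ∀ k, ContDiff ℝ ∞ (θ k))
    (hθ0 : ∀ k x, 0 ≤ θ k x ∧ θ k x ≤ 1) (hθA : ∀ k x, x ∉ A k → θ k x = 0) (D : Set E)
    (hD : ∀ k x, x ∈ A k → x ∉ D → ‖f x - H k x‖ ≤ δ k / 2) :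
    ∃ h : ℕ → 𝓢(E, ℂ), (∀ x, h 0 x = H 0 x) ∧ (∀ k x, ‖h (k + 1) x‖ ≤ ‖H (k + 1) x - H k x‖) ∧
      (∀ k x, θ k x = 1 → ‖h (k + 1) x‖ ≤ 2 * δ k) ∧
      ∀ x, x ∉ D → Tendsto (fun n => ∑ k ∈ Finset.range n, h k x) atTop (𝓝 (f x)) := by
  have hcut : ∀ k, ∃ g : 𝓢(E, ℂ), (∀ x, ‖g x‖ ≤ ‖H (k + 1) x - H k x‖) ∧
      (∀ x, θ k x = 1 → ‖g x‖ ≤ 2 * δ k) ∧
      ∀ x, ‖H (k + 1) x - H k x‖ ^ 2 * θ k x ≤ δ k ^ 2 → g x = H (k + 1) x - H k x := fun k =>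
    tcut (fun x => H (k + 1) x - H k x) ((hs (k + 1)).sub (hs k)) ((hc (k + 1)).sub (hc k)) (θ k)
      (hθ k) (δ k) (hδ k)
  choose g hg1 hg2 hg3 using hcut
  set h : ℕ → 𝓢(E, ℂ) := fun k => Nat.casesOn k ((hc 0).toSchwartzMap (hs 0)) g with hh
  have h0 : ∀ x, h 0 x = H 0 x := fun x => rfl
  have hk : ∀ k, h (k + 1) = g k := fun k => rfl
  refine ⟨h, h0, fun k x => by rw [hk]; exact hg1 k x, fun k x hx => by rw [hk]; exact hg2 k x hx,
    fun x hx => ?_⟩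
  have hstep : ∀ k, h (k + 1) x = H (k + 1) x - H k x := by
    intro k
    rw [hk]
    apply hg3
    by_cases hxA : x ∈ A k
    · have a1 := hD k x hxA hx
      have a2 := hD (k + 1) x (hA (Nat.le_succ k) hxA) hx
      have a3 : ‖H (k + 1) x - H k x‖ ≤ δ k := by
        have e : H (k + 1) x - H k x = (f x - H k x) - (f x - H (k + 1) x) := by ring
        rw [e]
        refine (norm_sub_le _ _).trans ?_
        linarith [anti k]
      have a4 : ‖H (k + 1) x - H k x‖ ^ 2 ≤ δ k ^ 2 := pow_le_pow_left₀ (norm_nonneg _) a3 2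
      nlinarith [(hθ0 k x).1, (hθ0 k x).2, sq_nonneg ‖H (k + 1) x - H k x‖]
    · rw [hθA k x hxA, mul_zero]
      positivity
  have hsum : ∀ n, ∑ k ∈ Finset.range (n + 1), h k x = H n x := by
    intro n
    induction n with
    | zero => simp [h0]
    | succ n ih => rw [Finset.sum_range_succ, ih, hstep]; ring
  rw [← tendsto_add_atTop_iff_nat 1]
  simp only [hsum]
  rw [tendsto_iff_norm_sub_tendsto_zero]
  obtain ⟨K, hK⟩ := hAU x
  refine squeeze_zero' (Eventually.of_forall fun n => norm_nonneg _) ?_ hδ0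
  filter_upwards [eventually_ge_atTop K] with n hn
  have := hD n x (hA hn hK) hx
  rw [norm_sub_rev]
  linarith [hδ n]

/-- the tolerances -/
noncomputable def dl (ε η : ℝ) (k : ℕ) : ℝ := ε * η / (64 * 4 ^ k)

lemma dl_pos {ε η : ℝ} (hε : 0 < ε) (hη : 0 < η) (k : ℕ) : 0 < dl ε η k := by
  unfold dl; positivity

lemma dl_anti {ε η : ℝ} (hε : 0 < ε) (hη : 0 < η) (k : ℕ) : dl ε η (k + 1) ≤ dl ε η k := by
  unfold dl
  gcongr
  · norm_num
  · omega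

lemma dl_lim (ε η : ℝ) : Tendsto (dl ε η) atTop (𝓝 0) := by
  unfold dl
  refine Tendsto.div_atTop tendsto_const_nhds ?_
  exact (tendsto_pow_atTop_atTop_of_one_lt (by norm_num)).const_mul_atTop (by norm_num)

lemma two_dl (ε η : ℝ) (k : ℕ) : 2 * dl ε η k = ε * η / (8 * 4 ^ (k + 1)) := by
  unfold dl
  rw [pow_succ]
  field_simp
  ring

lemma sum_vol (D : ℕ → Set E) (ε : ℝ) (hε : 0 < ε)
    (h : ∀ k, volume (D k) ≤ ENNReal.ofReal (ε / 2 / 2 ^ k)) :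
    volume (⋃ k, D k) ≤ ENNReal.ofReal ε := by
  refine (measure_iUnion_le _).trans ((ENNReal.tsum_le_tsum h).trans ?_)
  have hs := hasSum_geometric_two' ε
  rw [← ENNReal.ofReal_tsum_of_nonneg (fun k => by positivity) hs.summable, hs.tsum_eq]

lemma schA (f : E → ℂ) (hf : Measurable f) (ε η : ℝ) (hε : 0 < ε) (hη : 0 < η) :
    ∃ (h : ℕ → 𝓢(E, ℂ)) (D : Set E), MeasurableSet D ∧ volume D ≤ ENNReal.ofReal (ε / 4) ∧
      (∀ x, x ∉ D → Tendsto (fun n => ∑ k ∈ Finset.range n, h k x) atTop (𝓝 (f x))) ∧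
      ∀ r : ℝ, ∃ K : ℕ, ∀ k, K ≤ k → ∀ x, ‖x‖ ≤ r → ‖h k x‖ ≤ ε * η / (8 * 4 ^ k) := by
  have hap : ∀ k : ℕ, ∃ H : E → ℂ, ContDiff ℝ ∞ H ∧ HasCompactSupport H ∧
      ∃ D : Set E, MeasurableSet D ∧ volume D ≤ ENNReal.ofReal (ε / 4 / 2 / 2 ^ k) ∧
        ∀ x, ‖x‖ ≤ (k : ℝ) + 2 → x ∉ D → ‖f x - H x‖ ≤ dl ε η k / 2 := fun k =>
    apxA f hf _ _ _ (by have := dl_pos hε hη k; positivity) (by positivity)
  choose H hs hc D hDm hDv hD using hap
  have bump : ∀ k : ℕ, ∃ θ : E → ℝ, ContDiff ℝ ∞ θ ∧ (∀ x, 0 ≤ θ x ∧ θ x ≤ 1) ∧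
      (∀ x, ‖x‖ ≤ (k : ℝ) + 1 → θ x = 1) ∧ ∀ x, ¬ ‖x‖ ≤ (k : ℝ) + 2 → θ x = 0 := by
    intro k
    let b : ContDiffBump (0 : E) := ⟨(k : ℝ) + 1, (k : ℝ) + 2, by positivity, by linarith⟩
    refine ⟨b, b.contDiff, fun x => ⟨b.nonneg, b.le_one⟩, fun x hx => ?_, fun x hx => ?_⟩
    · exact b.one_of_mem_closedBall (by simpa using hx)
    · refine b.zero_of_le_dist ?_
      rw [dist_zero_right]
      push Not at hx
      exact hx.le
  choose θ hθs hθ0 hθ1 hθ2 using bump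
  obtain ⟨h, -, -, h3, h4⟩ := schG f H hs hc (dl ε η) (dl_pos hε hη) (dl_anti hε hη) (dl_lim ε η)
    (fun k => {x | ‖x‖ ≤ (k : ℝ) + 2}) (fun k l hkl x hx => by
      have : (k : ℝ) ≤ l := by exact_mod_cast hkl
      simp only [mem_ofPred_eq] at hx ⊢
      linarith)
    (fun x => by
      obtain ⟨k, hk⟩ := exists_nat_ge ‖x‖
      exact ⟨k, by simp only [mem_ofPred_eq]; linarith⟩)
    θ hθs hθ0 (fun k x hx => hθ2 k x hx) (⋃ k, D k)
    (fun k x hx hxD => hD k x hx fun h => hxD (mem_iUnion.2 ⟨k, h⟩))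
  refine ⟨h, ⋃ k, D k, MeasurableSet.iUnion hDm, sum_vol D (ε / 4) (by positivity) hDv, h4,
    fun r => ?_⟩
  obtain ⟨K, hK⟩ := exists_nat_ge r
  refine ⟨K + 1, fun k hk x hx => ?_⟩
  obtain ⟨l, rfl⟩ : ∃ l, k = l + 1 := ⟨k - 1, by omega⟩
  rw [← two_dl]
  refine h3 l x (hθ1 l x ?_)
  have : (K : ℝ) ≤ l := by
    have : K ≤ l := by omega
    exact_mod_cast this
  linarith

lemma schB (p : ℝ≥0∞) (hp : 1 ≤ p) (hp' : p ≠ ⊤) (f : E → ℂ) (hf : MemLp f p volume) (ε η : ℝ)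
    (hε : 0 < ε) (hη : 0 < η) :
    ∃ (h : ℕ → 𝓢(E, ℂ)) (D : Set E), MeasurableSet D ∧ volume D ≤ ENNReal.ofReal (ε / 4) ∧
      (∀ x, x ∉ D → Tendsto (fun n => ∑ k ∈ Finset.range n, h k x) atTop (𝓝 (f x))) ∧
      (∀ k, 1 ≤ k → ∀ x, ‖h k x‖ ≤ ε * η / (8 * 4 ^ k)) ∧
      eLpNorm (h 0) p volume ≤ eLpNorm f p volume + ENNReal.ofReal (ε * η / 100) ∧
      ∀ k : ℕ, eLpNorm (h (k + 1)) p volume ≤ ENNReal.ofReal (2 * (ε * η / 100 / 8 ^ k)) := by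
  have hap : ∀ k : ℕ, ∃ H : E → ℂ, ContDiff ℝ ∞ H ∧ HasCompactSupport H ∧
      eLpNorm (fun x => f x - H x) p volume ≤ ENNReal.ofReal (ε * η / 100 / 8 ^ k) ∧
      ∃ D : Set E, MeasurableSet D ∧ volume D ≤ ENNReal.ofReal (ε / 4 / 2 / 2 ^ k) ∧
        ∀ x, x ∉ D → ‖f x - H x‖ ≤ dl ε η k / 2 := fun k =>
    apxP p hp hp' f hf _ _ _ (by have := dl_pos hε hη k; positivity) (by positivity) (by positivity)
  choose H hs hc hn D hDm hDv hD using hap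
  obtain ⟨h, h1, h2, h3, h4⟩ := schG f H hs hc (dl ε η) (dl_pos hε hη) (dl_anti hε hη) (dl_lim ε η)
    (fun _ => univ) (fun k l _ x _ => mem_univ x) (fun x => ⟨0, mem_univ x⟩)
    (fun _ _ => 1) (fun k => contDiff_const) (fun k x => ⟨zero_le_one, le_rfl⟩)
    (fun k x hx => absurd (mem_univ x) hx) (⋃ k, D k)
    (fun k x _ hxD => hD k x fun h => hxD (mem_iUnion.2 ⟨k, h⟩))
  refine ⟨h, ⋃ k, D k, MeasurableSet.iUnion hDm, sum_vol D (ε / 4) (by positivity) hDv, h4,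
    ?_, ?_, ?_⟩
  · intro k hk x
    obtain ⟨l, rfl⟩ : ∃ l, k = l + 1 := ⟨k - 1, by omega⟩
    rw [← two_dl]
    exact h3 l x rfl
  · have e : (h 0 : E → ℂ) = f - (fun x => f x - H 0 x) := by
      ext x; simp [h1]
    rw [e]
    refine (eLpNorm_sub_le hf.1 (hf.1.sub (hs 0).continuous.aestronglyMeasurable) hp).trans ?_
    have := hn 0
    rw [pow_zero, div_one] at this
    exact add_le_add le_rfl this
  · intro k
    have e1 : eLpNorm (h (k + 1)) p volume ≤ eLpNorm (fun x => H (k + 1) x - H k x) p volume :=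
      eLpNorm_mono (h2 k)
    refine e1.trans ?_
    have e : (fun x => H (k + 1) x - H k x) = (fun x => f x - H k x) - (fun x => f x - H (k + 1) x) := by
      ext x; simp
    rw [e]
    refine (eLpNorm_sub_le (hf.1.sub (hs k).continuous.aestronglyMeasurable)
      (hf.1.sub (hs (k + 1)).continuous.aestronglyMeasurable) hp).trans ?_
    refine (add_le_add (hn k) (hn (k + 1))).trans ?_
    rw [← ENNReal.ofReal_add (by positivity) (by positivity)]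
    refine ENNReal.ofReal_le_ofReal ?_
    have : ε * η / 100 / 8 ^ (k + 1) ≤ ε * η / 100 / 8 ^ k := by
      gcongr
      · norm_num
      · omega
    linarith

end Pool.Agent.H197.WC
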