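import Mathlib
import Pool.Agent.H197.WC.Iter
import Pool.Agent.H197.WC.Sch
set_option autoImplicit false
set_option linter.unusedSectionVars false

/-! The corrected series for measurable functions. -/

namespace Pool.Agent.H197.WC

open MeasureTheory Set Filter Topology
open scoped ENNReal NNReal SchwartzMap

variable {E : Type*} [NormedAddCommGroup E] [InnerProductSpace ℝ E] [FiniteDimensional ℝ E]
  [MeasurableSpace E] [BorelSpace E]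

lemma fatou (p : ℝ≥0∞) (hp : 1 ≤ p) (e : ℕ → E → ℂ)
    (hm : ∀ k, AEStronglyMeasurable (e k) (volume : Measure E)) (C : ℝ) (hC : 0 ≤ C)
    (hb : ∀ k, eLpNorm (e k) p volume ≤ ENNReal.ofReal (C / 2 ^ (k + 1))) (R : E → ℂ)
    (hR : ∀ x, Tendsto (fun n => ∑ k ∈ Finset.range n, e k x) atTop (𝓝 (R x))) (n : ℕ) :
    eLpNorm (fun x => ∑ k ∈ Finset.range n, e k x - R x) p volume ≤ ENNReal.ofReal (C / 2 ^ n) := by
  have hP : ∀ n, AEStronglyMeasurable (fun x => ∑ k ∈ Finset.range n, e k x)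
      (volume : Measure E) := fun n => by
    induction n with
    | zero => simpa using aestronglyMeasurable_const
    | succ n ih =>
      simp only [Finset.sum_range_succ]
      exact ih.add (hm n)
  have key : ∀ j, eLpNorm (fun x => ∑ k ∈ Finset.range n, e k x -
      ∑ k ∈ Finset.range (n + j), e k x) p volume ≤ ENNReal.ofReal (C / 2 ^ n - C / 2 ^ (n + j)) := by
    intro j
    induction j with
    | zero => simp
    | succ j ih =>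
      have e1 : (fun x => ∑ k ∈ Finset.range n, e k x - ∑ k ∈ Finset.range (n + (j + 1)), e k x)
          = (fun x => ∑ k ∈ Finset.range n, e k x - ∑ k ∈ Finset.range (n + j), e k x) - e (n + j) := by
        ext x
        rw [← add_assoc, Finset.sum_range_succ]
        simp only [Pi.sub_apply]
        ring
      rw [e1]
      refine (eLpNorm_sub_le ((hP n).sub (hP (n + j))) (hm (n + j)) hp).trans ?_
      refine (add_le_add ih (hb (n + j))).trans ?_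
      rw [← ENNReal.ofReal_add _ (by positivity)]
      · refine ENNReal.ofReal_le_ofReal (le_of_eq ?_)
        rw [← add_assoc, pow_succ]
        field_simp
        ring
      · rw [sub_nonneg]
        gcongr
        · norm_num
        · omega
  refine Lp.eLpNorm_le_of_ae_tendsto (u := atTop) (f := fun m x => ∑ k ∈ Finset.range n, e k x -
    ∑ k ∈ Finset.range m, e k x) ?_ (fun m => (hP n).sub (hP m)) (ae_of_all _ fun x => ?_)
  · filter_upwards [eventually_ge_atTop n] with m hm'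
    obtain ⟨j, rfl⟩ := Nat.exists_eq_add_of_le hm'
    refine (key j).trans (ENNReal.ofReal_le_ofReal ?_)
    have : 0 ≤ C / 2 ^ (n + j) := by positivity
    linarith
  · exact tendsto_const_nhds.sub (hR x)

lemma locunif (v : ℕ → E → ℂ) (c : ℕ → ℝ) (hc : Summable c)
    (hloc : ∀ r : ℝ, ∃ K : ℕ, ∀ k, K ≤ k → ∀ x, ‖x‖ ≤ r → ‖v k x‖ ≤ c k) :
    ∃ g : E → ℂ, TendstoLocallyUniformly (fun n x => ∑ k ∈ Finset.range n, v k x) g atTop ∧
      ∀ x, Tendsto (fun n => ∑ k ∈ Finset.range n, v k x) atTop (𝓝 (g x)) := by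
  have hu : ∀ r : ℝ, TendstoUniformlyOn (fun n x => ∑ k ∈ Finset.range n, v k x)
      (fun x => ∑' k, v k x) atTop {x | ‖x‖ ≤ r} := by
    intro r
    obtain ⟨K, hK⟩ := hloc r
    exact tendstoUniformlyOn_tsum_nat_eventually hc
      (by filter_upwards [eventually_ge_atTop K] with k hk x hx using hK k hk x hx)
  refine ⟨fun x => ∑' k, v k x, ?_, fun x => ?_⟩
  · intro s hs x
    refine ⟨{y | ‖y‖ ≤ ‖x‖ + 1}, ?_, hu (‖x‖ + 1) s hs⟩
    have h1 : {y : E | ‖y‖ < ‖x‖ + 1} ∈ 𝓝 x :=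
      (isOpen_lt continuous_norm continuous_const).mem_nhds (by simp)
    refine mem_of_superset h1 fun y hy => ?_
    simp only [mem_ofPred_eq] at hy ⊢
    exact hy.le
  · exact (hu ‖x‖).tendsto_at (by simp)

theorem build {𝒬 : Set (Set E)} {T : Type} {Er : T → 𝓢(E, ℂ) → 𝓢(E, ℂ) → E → ℂ} {W : T → ℝ}
    (h : Eng 𝒬 Er W) (f₀ f₁ : E → ℂ) (ε η : ℝ) (hε : 0 < ε) (hε1 : ε ≤ 1) (hη : 0 < η) (D : Set E)
    (hD : Sp 𝒬 (ε / 2) D) (h₀ h₁ : ℕ → 𝓢(E, ℂ))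
    (hl₀ : ∀ x, x ∉ D → Tendsto (fun n => ∑ k ∈ Finset.range n, h₀ k x) atTop (𝓝 (f₀ x)))
    (hl₁ : ∀ x, x ∉ D → Tendsto (fun n => ∑ k ∈ Finset.range n, h₁ k x) atTop (𝓝 (f₁ x)))
    (hc₀ : ∀ r : ℝ, ∃ K : ℕ, ∀ k, K ≤ k → ∀ x, ‖x‖ ≤ r → ‖h₀ k x‖ ≤ ε * η / (8 * 4 ^ k))
    (hc₁ : ∀ r : ℝ, ∃ K : ℕ, ∀ k, K ≤ k → ∀ x, ‖x‖ ≤ r → ‖h₁ k x‖ ≤ ε * η / (8 * 4 ^ k)) :
    ∃ (v₀ v₁ : ℕ → 𝓢(E, ℂ)) (g₀ g₁ : E → ℂ) (B : Set E) (R : T → E → ℂ), Sp 𝒬 ε B ∧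
      (∀ x, x ∉ B → g₀ x = f₀ x ∧ g₁ x = f₁ x) ∧
      (∀ k x, ‖v₀ k x‖ ≤ 8 * 2 ^ k / ε * ‖h₀ k x‖ ∧ ‖v₁ k x‖ ≤ 8 * 2 ^ k / ε * ‖h₁ k x‖) ∧
      TendstoLocallyUniformly (fun n x => ∑ k ∈ Finset.range n, v₀ k x) g₀ atTop ∧
      TendstoLocallyUniformly (fun n x => ∑ k ∈ Finset.range n, v₁ k x) g₁ atTop ∧
      (∀ t n x, ‖∑ k ∈ Finset.range n, Er t (v₀ k) (v₁ k) x - R t x‖ ≤ η * W t / 2 ^ n) ∧
      ∀ t n, eLpNorm (fun x => ∑ k ∈ Finset.range n, Er t (v₀ k) (v₁ k) x - R t x) 2 volume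
        ≤ ENNReal.ofReal (η * W t / 2 ^ n) := by
  have hεk : ∀ k : ℕ, 0 < ε / 2 / 2 / 2 ^ k ∧ ε / 2 / 2 / 2 ^ k ≤ 1 := fun k =>
    ⟨by positivity, (div_le_self (by positivity) (one_le_pow₀ (by norm_num))).trans (by linarith)⟩
  have hc : ∀ k : ℕ, ∃ (v₀ v₁ : 𝓢(E, ℂ)) (B : Set E),
    Sp 𝒬 (ε / 2 / 2 / 2 ^ k) B ∧ (∀ x, x ∉ B → v₀ x = h₀ k x ∧ v₁ x = h₁ k x) ∧
    (∀ x, ‖v₀ x‖ ≤ 2 / (ε / 2 / 2 / 2 ^ k) * ‖h₀ k x‖ ∧
      ‖v₁ x‖ ≤ 2 / (ε / 2 / 2 / 2 ^ k) * ‖h₁ k x‖) ∧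
    ∀ t, (∀ x, ‖Er t v₀ v₁ x‖ ≤ η / 2 ^ (k + 1) * W t) ∧
      eLpNorm (Er t v₀ v₁) 2 volume ≤ ENNReal.ofReal (η / 2 ^ (k + 1) * W t) := fun k =>
    h.corr (h₀ k) (h₁ k) _ _ (hεk k).1 (hεk k).2 (by positivity)
  choose v₀ v₁ B hB heq hbd her using hc
  have hcoef : ∀ k : ℕ, 2 / (ε / 2 / 2 / 2 ^ k) = 8 * 2 ^ k / ε := by
    intro k
    field_simp
    ring
  have hsm : Summable fun k : ℕ => η / 2 ^ k := by
    have := summable_geometric_two' (2 * η)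
    refine this.congr fun k => ?_
    ring
  have hloc : ∀ (v w : ℕ → 𝓢(E, ℂ)), (∀ k x, ‖v k x‖ ≤ 8 * 2 ^ k / ε * ‖w k x‖) →
      (∀ r : ℝ, ∃ K : ℕ, ∀ k, K ≤ k → ∀ x, ‖x‖ ≤ r → ‖w k x‖ ≤ ε * η / (8 * 4 ^ k)) →
      ∀ r : ℝ, ∃ K : ℕ, ∀ k, K ≤ k → ∀ x, ‖x‖ ≤ r → ‖v k x‖ ≤ η / 2 ^ k := by
    intro v w hvw hw r
    obtain ⟨K, hK⟩ := hw r
    refine ⟨K, fun k hk x hx => (hvw k x).trans ?_⟩
    calc 8 * 2 ^ k / ε * ‖w k x‖ ≤ 8 * 2 ^ k / ε * (ε * η / (8 * 4 ^ k)) := by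
          gcongr
          exact hK k hk x hx
      _ = η / 2 ^ k := by
          have : (4 : ℝ) ^ k = 2 ^ k * 2 ^ k := by rw [← mul_pow]; norm_num
          rw [this]
          field_simp
  have hb0 : ∀ k x, ‖v₀ k x‖ ≤ 8 * 2 ^ k / ε * ‖h₀ k x‖ := fun k x => by
    rw [← hcoef]; exact (hbd k x).1
  have hb1 : ∀ k x, ‖v₁ k x‖ ≤ 8 * 2 ^ k / ε * ‖h₁ k x‖ := fun k x => by
    rw [← hcoef]; exact (hbd k x).2
  obtain ⟨g₀, hg₀, hg₀'⟩ := locunif (fun k => v₀ k) _ hsm (hloc v₀ h₀ hb0 hc₀)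
  obtain ⟨g₁, hg₁, hg₁'⟩ := locunif (fun k => v₁ k) _ hsm (hloc v₁ h₁ hb1 hc₁)
  -- the errors
  have hd : ∀ t x (n : ℕ), dist (∑ k ∈ Finset.range n, Er t (v₀ k) (v₁ k) x)
      (∑ k ∈ Finset.range (n + 1), Er t (v₀ k) (v₁ k) x) ≤ η * W t / 2 / 2 ^ n := by
    intro t x n
    rw [Finset.sum_range_succ, dist_self_add_right]
    refine ((her n t).1 x).trans (le_of_eq ?_)
    rw [pow_succ]
    field_simp
  have hlim : ∀ t x, ∃ a : ℂ, Tendsto (fun n => ∑ k ∈ Finset.range n, Er t (v₀ k) (v₁ k) x) atTop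
      (𝓝 a) := fun t x => cauchySeq_tendsto_of_complete (cauchySeq_of_le_geometric_two (hd t x))
  choose R hR using hlim
  have hUm : MeasurableSet (⋃ k, B k) := MeasurableSet.iUnion fun k => (hB k).1
  refine ⟨v₀, v₁, g₀, g₁, D ∪ ⋃ k, B k, R, ⟨hD.1.union hUm, ?_⟩, ?_, fun k x => ⟨hb0 k x, hb1 k x⟩,
    hg₀, hg₁, ?_, ?_⟩
  · intro Q hQ
    rw [union_inter_distrib_right]
    have h2 : volume ((⋃ k, B k) ∩ Q) ≤ ENNReal.ofReal (ε / 2) := by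
      rw [iUnion_inter]
      exact sum_vol _ (ε / 2) (by positivity) fun k => (hB k).2 Q hQ
    refine (measure_union_le _ _).trans ((add_le_add (hD.2 Q hQ) h2).trans ?_)
    rw [← ENNReal.ofReal_add (by positivity) (by positivity), add_halves]
  · intro x hx
    rw [mem_union, not_or] at hx
    have hxB : ∀ k, x ∉ B k := fun k hk => hx.2 (mem_iUnion.2 ⟨k, hk⟩)
    constructor
    · refine tendsto_nhds_unique (hg₀' x) ?_
      refine (hl₀ x hx.1).congr fun n => ?_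
      exact Finset.sum_congr rfl fun k _ => ((heq k x (hxB k)).1).symm
    · refine tendsto_nhds_unique (hg₁' x) ?_
      refine (hl₁ x hx.1).congr fun n => ?_
      exact Finset.sum_congr rfl fun k _ => ((heq k x (hxB k)).2).symm
  · intro t n x
    have := dist_le_of_le_geometric_two_of_tendsto (hd t x) (hR t x) n
    rwa [dist_eq_norm] at this
  · intro t n
    have hW := h.nn t
    refine fatou 2 (by norm_num) (fun k => Er t (v₀ k) (v₁ k)) (fun k => h.meas t _ _) (η * W t)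
      (by positivity) (fun k => ?_) (R t) (fun x => hR t x) n
    refine (her k t).2.trans (le_of_eq ?_)
    congr 1
    ring

end Pool.Agent.H197.WC
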