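import Mathlib
set_option autoImplicit false
set_option linter.unusedSectionVars false

/-! The set `{fract (N x_i) < ε}` occupies the proportion `ε` of every unit cube. -/

namespace Pool.Agent.H197.WC

open MeasureTheory Set Filter Topology
open scoped ENNReal NNReal

lemma slab_meas (N : ℕ) (ε : ℝ) : MeasurableSet {s : ℝ | Int.fract ((N : ℝ) * s) < ε} :=
  measurableSet_lt (measurable_fract.comp (measurable_const.mul measurable_id)) measurable_const

lemma slab (N : ℕ) (hN : 1 ≤ N) (ε : ℝ) (h0 : 0 < ε) (h1 : ε ≤ 1) (a : ℝ) :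
    volume ({s : ℝ | Int.fract ((N : ℝ) * s) < ε} ∩ Ico a (a + 1)) ≤ ENNReal.ofReal ε := by
  set S : Set ℝ := {s : ℝ | Int.fract ((N : ℝ) * s) < ε} with hS
  have hSm : MeasurableSet S := slab_meas N ε
  have hN0 : (0 : ℝ) < N := by exact_mod_cast hN
  set F : ℝ → ℝ := S.indicator (fun _ => (1 : ℝ)) with hF
  have hper : Function.Periodic F (1 / N) := by
    intro s
    have : (N : ℝ) * (s + 1 / N) = N * s + 1 := by field_simp
    simp only [hF, Set.indicator, hS, mem_ofPred_eq, this, Int.fract_add_one]
  have hint : ∀ t₁ t₂ : ℝ, IntervalIntegrable F volume t₁ t₂ := by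
    intro t₁ t₂
    refine (intervalIntegrable_const (c := (1 : ℝ))).mono_fun'
      ((measurable_const.indicator hSm).aestronglyMeasurable) (ae_of_all _ fun s => ?_)
    simp only [hF, Set.indicator]
    split_ifs <;> simp
  have e1 : ∫ x in a..a + 1, F x = N * ∫ x in (0 : ℝ)..0 + 1 / N, F x := by
    have h2 := hper.intervalIntegral_add_zsmul_eq (N : ℤ) a hint
    have h3 : ((N : ℤ) • (1 / (N : ℝ)) : ℝ) = 1 := by simp; field_simp
    rw [h3] at h2
    rw [h2, hper.intervalIntegral_add_eq a 0]
    simp
  have e2 : ∫ x in (0 : ℝ)..0 + 1 / N, F x ≤ ε / N := by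
    rw [zero_add, intervalIntegral.integral_of_le (by positivity), ← integral_indicator
      measurableSet_Ioc]
    have e3 : (Ioc (0 : ℝ) (1 / N)).indicator F ≤ᵐ[volume] (Icc (0 : ℝ) (ε / N)).indicator (fun _ => (1 : ℝ)) := by
      have hne : ∀ᵐ s : ℝ, s ≠ 1 / N := by
        simp [ae_iff, measure_singleton]
      filter_upwards [hne] with s hs
      simp only [Set.indicator, hF]
      by_cases h4 : s ∈ Ioc (0 : ℝ) (1 / N)
      · rw [if_pos h4]
        by_cases h5 : s ∈ S
        · rw [if_pos h5]
          have hlt : s < 1 / N := lt_of_le_of_ne h4.2 hs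
          have h6 : Int.fract ((N : ℝ) * s) = N * s := by
            rw [Int.fract_eq_self]
            refine ⟨by have := h4.1; positivity, ?_⟩
            rw [lt_div_iff₀ hN0] at hlt
            linarith
          have h7 : (N : ℝ) * s < ε := by rw [← h6]; exact h5
          have h8 : s ∈ Icc (0 : ℝ) (ε / N) := ⟨h4.1.le, by rw [le_div_iff₀ hN0]; linarith⟩
          rw [if_pos h8]
        · rw [if_neg h5]
          split_ifs <;> simp
      · rw [if_neg h4]
        split_ifs <;> simp
    have i1 : Integrable ((Ioc (0 : ℝ) (1 / N)).indicator F) := by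
      rw [integrable_indicator_iff measurableSet_Ioc]
      have := hint 0 (1 / N)
      rwa [intervalIntegrable_iff_integrableOn_Ioc_of_le (by positivity)] at this
    have i2 : Integrable ((Icc (0 : ℝ) (ε / N)).indicator (fun _ => (1 : ℝ))) := by
      rw [integrable_indicator_iff measurableSet_Icc]
      exact integrableOn_const (by simp) (by simp)
    refine (integral_mono_ae i1 i2 e3).trans ?_
    rw [integral_indicator_const _ measurableSet_Icc, Measure.real, Real.volume_Icc, sub_zero,
      ENNReal.toReal_ofReal (by positivity)]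
    simp
  have e4 : ∫ x in a..a + 1, F x = (volume (S ∩ Ioc a (a + 1))).toReal := by
    rw [intervalIntegral.integral_of_le (by linarith), hF, integral_indicator_const _ hSm,
      Measure.real, Measure.restrict_apply hSm]
    simp
  have e5 : volume (S ∩ Ico a (a + 1)) = volume (S ∩ Ioc a (a + 1)) := by
    refine measure_congr ?_
    exact (ae_eq_refl S).inter Ico_ae_eq_Ioc
  have hfin : volume (S ∩ Ioc a (a + 1)) ≠ ⊤ :=
    ((measure_mono inter_subset_right).trans_lt (by simp : volume (Ioc a (a + 1)) < ⊤)).ne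
  rw [e5, ← ENNReal.ofReal_toReal hfin, ← e4, e1]
  refine ENNReal.ofReal_le_ofReal ?_
  calc (N : ℝ) * ∫ x in (0 : ℝ)..0 + 1 / N, F x ≤ N * (ε / N) :=
        mul_le_mul_of_nonneg_left e2 hN0.le
    _ = ε := by field_simp

/-- Unit cubes. -/
def cube {d : ℕ} (a : EuclideanSpace ℝ (Fin d)) : Set (EuclideanSpace ℝ (Fin d)) :=
  {x | ∀ j, a j ≤ x j ∧ x j < a j + 1}

/-- The exceptional set. -/
def Bs {d : ℕ} (i : Fin d) (N : ℕ) (ε : ℝ) : Set (EuclideanSpace ℝ (Fin d)) :=
  {x | Int.fract ((N : ℝ) * x i) < ε}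

lemma Bs_meas {d : ℕ} (i : Fin d) (N : ℕ) (ε : ℝ) : MeasurableSet (Bs i N ε) := by
  have h : Measurable fun x : EuclideanSpace ℝ (Fin d) => x i := by
    exact (measurable_pi_apply i).comp (PiLp.continuous_ofLp 2 _).measurable
  exact h (slab_meas N ε)

lemma Bs_vol {d : ℕ} (i : Fin d) (N : ℕ) (hN : 1 ≤ N) (ε : ℝ) (h0 : 0 < ε) (h1 : ε ≤ 1)
    (a : EuclideanSpace ℝ (Fin d)) : volume (Bs i N ε ∩ cube a) ≤ ENNReal.ofReal ε := by
  set f : Fin d → Set ℝ := fun j => if j = i then
    ({s : ℝ | Int.fract ((N : ℝ) * s) < ε} ∩ Ico (a j) (a j + 1)) else Ico (a j) (a j + 1) with hf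
  have hfm : ∀ j, MeasurableSet (f j) := by
    intro j
    simp only [hf]
    split_ifs
    · exact (slab_meas N ε).inter measurableSet_Ico
    · exact measurableSet_Ico
  have e : Bs i N ε ∩ cube a = (fun x : EuclideanSpace ℝ (Fin d) => (x.ofLp : Fin d → ℝ)) ⁻¹'
      (Set.pi univ f) := by
    ext x
    simp only [Bs, cube, mem_inter_iff, mem_ofPred_eq, mem_preimage, Set.mem_pi]
    constructor
    · rintro ⟨h2, h3⟩ j -
      simp only [hf]
      split_ifs with hj
      · subst hj; exact ⟨h2, h3 j⟩
      · exact h3 j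
    · intro h2
      constructor
      · have := h2 i (mem_univ i)
        simp only [hf, if_true] at this
        exact this.1
      · intro j
        have := h2 j (mem_univ j)
        simp only [hf] at this
        split_ifs at this with hj
        · exact this.2
        · exact this
  rw [e, (PiLp.volume_preserving_ofLp (Fin d)).measure_preimage
    (MeasurableSet.univ_pi hfm).nullMeasurableSet, volume_pi_pi]
  rw [← Finset.mul_prod_erase Finset.univ _ (Finset.mem_univ i)]
  have h2 : ∏ j ∈ Finset.univ.erase i, volume (f j) = 1 := by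
    refine Finset.prod_eq_one fun j hj => ?_
    simp only [hf, if_neg (Finset.ne_of_mem_erase hj)]
    simp
  rw [h2, mul_one]
  simp only [hf, if_pos]
  exact slab N hN ε h0 h1 (a i)

end Pool.Agent.H197.WC
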