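import Mathlib
import Pool.Agent.H197.WC.Bd
import Pool.Agent.H197.WC.Iter
import Pool.Agent.H197.WC.Cube
set_option autoImplicit false
set_option linter.unusedSectionVars false

/-! The wave equation as an instance of the iteration. -/

namespace Pool.Agent.H197.WC

open MeasureTheory Set Filter Topology
open scoped ENNReal NNReal FourierTransform RealInnerProductSpace SchwartzMap

/-- `ℝ^d`. -/
abbrev RR (d : ℕ) := EuclideanSpace ℝ (Fin d)

/-- the difference of the wave and the average of the two translates -/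
noncomputable def Ew {d : ℕ} (i : Fin d) (t : ℝ) (u₀ u₁ : 𝓢(RR d, ℂ)) (x : RR d) : ℂ :=
  wv u₀ u₁ t x - (u₀ (x + t • EuclideanSpace.single i 1) +
    u₀ (x - t • EuclideanSpace.single i 1)) / 2

section
variable {E : Type*} [NormedAddCommGroup E] [InnerProductSpace ℝ E] [FiniteDimensional ℝ E]
  [MeasurableSpace E] [BorelSpace E]

lemma mask {ψ : ℝ → ℂ} (hT : ψ.HasTemperateGrowth) (N : ℝ) (e : E) (u : 𝓢(E, ℂ)) :
    ∃ v : 𝓢(E, ℂ), ∀ x, v x = ψ (N * ⟪x, e⟫) * u x := by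
  have h1 : (fun x : E => ⟪x, e⟫).HasTemperateGrowth := Function.hasTemperateGrowth_inner_left e
  have h2 : (fun x : E => N * ⟪x, e⟫).HasTemperateGrowth :=
    (Function.HasTemperateGrowth.const N).mul h1
  have h3 : (fun x : E => ψ (N * ⟪x, e⟫)).HasTemperateGrowth := hT.comp h2
  refine ⟨SchwartzMap.smulLeftCLM ℂ (fun x : E => ψ (N * ⟪x, e⟫)) u, fun x => ?_⟩
  rw [SchwartzMap.smulLeftCLM_apply_apply h3, smul_eq_mul]

lemma finv_cont {g : E → ℂ} (hg : Integrable g) : Continuous (𝓕⁻ g) := by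
  have e : (𝓕⁻ g : E → ℂ) = (𝓕 g) ∘ (fun x => -x) := by
    ext x
    simp only [Function.comp_apply, Real.fourierInv_eq_fourier_neg]
  rw [e]
  exact (VectorFourier.fourierIntegral_continuous Real.continuous_fourierChar
    (innerSL ℝ).continuous₂ hg).comp continuous_neg

lemma wv_int (v₀ v₁ : 𝓢(E, ℂ)) (t : ℝ) :
    Integrable fun ξ => ((Real.cos (2 * Real.pi * t * ‖ξ‖) : ℝ) : ℂ) * 𝓕 v₀ ξ +
    ((t * Real.sinc (2 * Real.pi * t * ‖ξ‖) : ℝ) : ℂ) * 𝓕 v₁ ξ :=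
  (int_cos v₀ t).add (int_sinc v₁ t)

lemma wv_cont (v₀ v₁ : 𝓢(E, ℂ)) (t : ℝ) : Continuous (wv v₀ v₁ t) := finv_cont (wv_int v₀ v₁ t)

lemma wv_add (u₀ u₁ v₀ v₁ : 𝓢(E, ℂ)) (t : ℝ) (x : E) :
    wv (u₀ + v₀) (u₁ + v₁) t x = wv u₀ u₁ t x + wv v₀ v₁ t x := by
  unfold wv
  rw [← finv_add (wv_int u₀ u₁ t) (wv_int v₀ v₁ t)]
  have h0 : 𝓕 (u₀ + v₀) = 𝓕 u₀ + 𝓕 v₀ := FourierTransform.fourier_add _ _
  have h1 : 𝓕 (u₁ + v₁) = 𝓕 u₁ + 𝓕 v₁ := FourierTransform.fourier_add _ _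
  rw [h0, h1]
  have e : (fun ξ => ((Real.cos (2 * Real.pi * t * ‖ξ‖) : ℝ) : ℂ) * (𝓕 u₀ + 𝓕 v₀) ξ +
      ((t * Real.sinc (2 * Real.pi * t * ‖ξ‖) : ℝ) : ℂ) * (𝓕 u₁ + 𝓕 v₁) ξ)
      = fun ξ => (((Real.cos (2 * Real.pi * t * ‖ξ‖) : ℝ) : ℂ) * 𝓕 u₀ ξ +
      ((t * Real.sinc (2 * Real.pi * t * ‖ξ‖) : ℝ) : ℂ) * 𝓕 u₁ ξ) +
      (((Real.cos (2 * Real.pi * t * ‖ξ‖) : ℝ) : ℂ) * 𝓕 v₀ ξ +
      ((t * Real.sinc (2 * Real.pi * t * ‖ξ‖) : ℝ) : ℂ) * 𝓕 v₁ ξ) := by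
    ext ξ
    simp only [SchwartzMap.add_apply]
    ring
  rw [e]

end

lemma Ew_cont {d : ℕ} (i : Fin d) (t : ℝ) (u₀ u₁ : 𝓢(RR d, ℂ)) : Continuous (Ew i t u₀ u₁) := by
  have h1 := wv_cont u₀ u₁ t
  have h2 := u₀.continuous
  unfold Ew
  fun_prop

theorem engW {d : ℕ} (i : Fin d) : Eng (range (cube (d := d))) (Ew i) (fun t => 1 + |t|) where
  nn t := by positivity
  add t u₀ u₁ v₀ v₁ x := by
    simp only [Ew, wv_add, SchwartzMap.add_apply]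
    ring
  meas t u₀ u₁ := (Ew_cont i t u₀ u₁).aestronglyMeasurable
  corr u₀ u₁ ε η hε hε1 hη := by
    obtain ⟨c, ψ, hc0, hcm, hs, h1, h2, hT⟩ := exists_per ε hε hε1
    set e : RR d := EuclideanSpace.single i 1 with he
    have hen : ‖e‖ = 1 := by simp [he]
    have hin : ∀ x : RR d, ⟪x, e⟫ = x i := by
      intro x
      rw [he, EuclideanSpace.inner_single_right]
      simp
    have hc : Summable fun n => ‖c n‖ := (hcm 0).congr fun n => by rw [pow_zero, mul_one]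
    obtain ⟨A, hA, hmain⟩ := main_bound c ψ hc0 hc hs u₀ u₁ e hen
    obtain ⟨N, hN⟩ := exists_nat_ge (max 1 (A / η))
    have hN1 : (1 : ℝ) ≤ N := (le_max_left _ _).trans hN
    have hN1' : 1 ≤ N := by exact_mod_cast hN1
    have hNA : A / N ≤ η := by
      rw [div_le_iff₀ (by linarith)]
      have := (le_max_right _ _).trans hN
      rw [div_le_iff₀ hη] at this
      linarith
    obtain ⟨v₀, hv₀⟩ := mask hT N e u₀
    obtain ⟨v₁, hv₁⟩ := mask hT N e u₁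
    refine ⟨v₀, v₁, Bs i N ε, ⟨Bs_meas i N ε, ?_⟩, ?_, ?_, ?_⟩
    · rintro Q ⟨a, rfl⟩
      exact Bs_vol i N hN1' ε hε hε1 a
    · intro x hx
      have h3 : ψ (N * ⟪x, e⟫) = 1 := by
        apply h1
        rw [hin]
        simpa [Bs] using hx
      rw [hv₀, hv₁, h3, one_mul, one_mul]
      exact ⟨rfl, rfl⟩
    · intro x
      rw [hv₀, hv₁, norm_mul, norm_mul]
      exact ⟨mul_le_mul_of_nonneg_right (h2 _) (norm_nonneg _),
        mul_le_mul_of_nonneg_right (h2 _) (norm_nonneg _)⟩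
    · intro t
      obtain ⟨m1, m2⟩ := hmain N hN1 v₀ v₁ hv₀ hv₁ t
      have h4 : A * (1 + |t|) / N ≤ η * (1 + |t|) := by
        have : A * (1 + |t|) / N = A / N * (1 + |t|) := by ring
        rw [this]
        exact mul_le_mul_of_nonneg_right hNA (by positivity)
      exact ⟨fun x => (m1 x).trans h4, m2.trans (ENNReal.ofReal_le_ofReal h4)⟩

end Pool.Agent.H197.WC
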