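import Mathlib
import Pool.Agent.H197.WC.EngW
set_option autoImplicit false
set_option linter.unusedSectionVars false

/-! Conclusions for the wave equation. -/

namespace Pool.Agent.H197.WC

open MeasureTheory Set Filter Topology
open scoped ENNReal NNReal FourierTransform RealInnerProductSpace SchwartzMap

variable {d : ℕ}

noncomputable def tr (i : Fin d) (g : RR d → ℂ) (t : ℝ) (x : RR d) : ℂ :=
  (g (x + t • EuclideanSpace.single i 1) + g (x - t • EuclideanSpace.single i 1)) / 2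

lemma tr_norm (i : Fin d) (g : RR d → ℂ) (t : ℝ) (p : ℝ≥0∞) (hp : 1 ≤ p)
    (hg : AEStronglyMeasurable g volume) : AEStronglyMeasurable (tr i g t) volume ∧
    eLpNorm (tr i g t) p volume ≤ eLpNorm g p volume := by
  set a : RR d := t • EuclideanSpace.single i 1 with ha
  have m1 : MeasurePreserving (fun x : RR d => x + a) volume volume :=
    measurePreserving_add_right volume a
  have m2 : MeasurePreserving (fun x : RR d => x - a) volume volume :=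
    measurePreserving_sub_right volume a
  have g1 : AEStronglyMeasurable (fun x => g (x + a)) volume :=
    hg.comp_measurePreserving m1
  have g2 : AEStronglyMeasurable (fun x => g (x - a)) volume :=
    hg.comp_measurePreserving m2
  have n1 : eLpNorm (fun x => g (x + a)) p volume = eLpNorm g p volume :=
    eLpNorm_comp_measurePreserving hg m1
  have n2 : eLpNorm (fun x => g (x - a)) p volume = eLpNorm g p volume :=
    eLpNorm_comp_measurePreserving hg m2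
  have e : tr i g t = fun x => (1 / 2 : ℂ) * ((fun x => g (x + a)) + fun x => g (x - a)) x := by
    ext x
    simp only [tr, Pi.add_apply, ha]
    ring
  rw [e]
  refine ⟨(g1.add g2).const_mul _, ?_⟩
  have h3 := eLpNorm_const_smul (1 / 2 : ℂ) ((fun x => g (x + a)) + fun x => g (x - a)) p
    (volume : Measure (RR d))
  have h4 : ((1 / 2 : ℂ) • ((fun x => g (x + a)) + fun x => g (x - a)))
      = fun x => (1 / 2 : ℂ) * ((fun x => g (x + a)) + fun x => g (x - a)) x := by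
    ext x; simp
  rw [h4] at h3
  rw [h3]
  have h5 := eLpNorm_add_le g1 g2 hp
  rw [n1, n2] at h5
  refine (mul_le_mul_right h5 _).trans (le_of_eq ?_)
  rw [← two_mul, ← mul_assoc]
  have h6 : ‖(1 / 2 : ℂ)‖ₑ * 2 = 1 := by
    rw [← ofReal_norm]
    simp only [one_div, norm_inv, Complex.norm_ofNat]
    rw [ENNReal.ofReal_inv_of_pos (by norm_num)]
    simp [ENNReal.inv_mul_cancel]
  rw [h6, one_mul]

lemma Ew_eq (i : Fin d) (t : ℝ) (u₀ u₁ : 𝓢(RR d, ℂ)) (x : RR d) :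
    Ew i t u₀ u₁ x = wv u₀ u₁ t x - tr i u₀ t x := rfl

/-- (1) -/
theorem part1 (i : Fin d) (ε η : ℝ) (hε : 0 < ε) (hε1 : ε ≤ 1) (hη : 0 < η)
    (u₀ u₁ : 𝓢(RR d, ℂ)) : ∃ (v₀ v₁ : 𝓢(RR d, ℂ)) (B : Set (RR d)),
    Sp (range cube) ε B ∧ (∀ x, x ∉ B → v₀ x = u₀ x ∧ v₁ x = u₁ x) ∧
    (∀ x, ‖v₀ x‖ ≤ 2 / ε * ‖u₀ x‖ ∧ ‖v₁ x‖ ≤ 2 / ε * ‖u₁ x‖) ∧
    ∀ (t : ℝ) (p : ℝ≥0∞), 2 ≤ p →
      eLpNorm (fun x => wv v₀ v₁ t x - tr i v₀ t x) p volume ≤ ENNReal.ofReal (η * (1 + |t|)) ∧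
      eLpNorm (wv v₀ v₁ t) p volume ≤ eLpNorm v₀ p volume + ENNReal.ofReal (η * (1 + |t|)) := by
  obtain ⟨v₀, v₁, B, h1, h2, h3, h4⟩ := (engW i).corr u₀ u₁ ε η hε hε1 hη
  refine ⟨v₀, v₁, B, h1, h2, h3, fun t p hp => ?_⟩
  have h5 : eLpNorm (fun x => wv v₀ v₁ t x - tr i v₀ t x) p volume
      ≤ ENNReal.ofReal (η * (1 + |t|)) :=
    interp (Ew i t v₀ v₁) _ (by positivity) (h4 t).1 (h4 t).2 p hp
  refine ⟨h5, ?_⟩
  have hp1 : 1 ≤ p := le_trans (by norm_num) hp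
  obtain ⟨m, n⟩ := tr_norm i v₀ t p hp1 v₀.continuous.aestronglyMeasurable
  have e : wv v₀ v₁ t = tr i v₀ t + fun x => wv v₀ v₁ t x - tr i v₀ t x := by
    ext x; simp
  rw [e]
  refine (eLpNorm_add_le m ((wv_cont v₀ v₁ t).aestronglyMeasurable.sub m) hp1).trans ?_
  exact add_le_add n h5

/-- strong solutions -/
def Sol (p : ℝ≥0∞) (g₀ g₁ : RR d → ℂ) (U : ℝ → RR d → ℂ) : Prop :=
  ∃ v₀ v₁ : ℕ → 𝓢(RR d, ℂ),
    Tendsto (fun n => eLpNorm (fun x => v₀ n x - g₀ x) p volume) atTop (𝓝 0) ∧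
    Tendsto (fun n => eLpNorm (fun x => v₁ n x - g₁ x) p volume) atTop (𝓝 0) ∧
    ∀ T : ℝ, Tendsto (fun n => ⨆ t ∈ Icc (-T) T,
      eLpNorm (fun x => wv (v₀ n) (v₁ n) t x - U t x) p volume) atTop (𝓝 0)

/-- (2) -/
theorem part2 (i : Fin d) (ε η : ℝ) (hε : 0 < ε) (hε1 : ε ≤ 1) (hη : 0 < η)
    (p : ℝ≥0∞) (hp : 2 ≤ p) (hp' : p ≠ ⊤) (f₀ f₁ : RR d → ℂ) (hf₀ : MemLp f₀ p volume)
    (hf₁ : MemLp f₁ p volume) : ∃ (g₀ g₁ : RR d → ℂ) (B : Set (RR d)) (U : ℝ → RR d → ℂ),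
    MemLp g₀ p volume ∧ MemLp g₁ p volume ∧
    Sp (range cube) ε B ∧ (∀ x, x ∉ B → g₀ x = f₀ x ∧ g₁ x = f₁ x) ∧
    eLpNorm g₀ p volume ≤ ENNReal.ofReal (4 / ε) * eLpNorm f₀ p volume + ENNReal.ofReal η ∧
    eLpNorm g₁ p volume ≤ ENNReal.ofReal (4 / ε) * eLpNorm f₁ p volume + ENNReal.ofReal η ∧
    Sol p g₀ g₁ U ∧ ∀ t : ℝ,
      eLpNorm (fun x => U t x - tr i g₀ t x) p volume ≤ ENNReal.ofReal (η * (1 + |t|)) ∧
      eLpNorm (U t) p volume ≤ eLpNorm g₀ p volume + ENNReal.ofReal (η * (1 + |t|)) := by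
  obtain ⟨g₀, g₁, B, V₀, V₁, R, hg₀, hg₁, hB, heq, hn₀, hn₁, hconv, hR⟩ :=
    iter (engW i) p hp hp' f₀ f₁ hf₀ hf₁ ε η hε hε1 hη
  have hp1 : 1 ≤ p := le_trans (by norm_num) hp
  have t0 : Tendsto (fun n : ℕ => ENNReal.ofReal (η / 2 ^ n)) atTop (𝓝 0) := by
    rw [← ENNReal.ofReal_zero]
    refine ENNReal.tendsto_ofReal (Tendsto.div_atTop tendsto_const_nhds ?_)
    exact tendsto_pow_atTop_atTop_of_one_lt (by norm_num)
  refine ⟨g₀, g₁, B, fun t x => tr i g₀ t x + R t x, hg₀, hg₁, hB, heq, hn₀, hn₁,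
    ⟨V₀, V₁, ?_, ?_, fun T => ?_⟩, fun t => ⟨?_, ?_⟩⟩
  · exact tendsto_of_tendsto_of_tendsto_of_le_of_le tendsto_const_nhds t0 (fun n => zero_le)
      fun n => (hconv n).1
  · exact tendsto_of_tendsto_of_tendsto_of_le_of_le tendsto_const_nhds t0 (fun n => zero_le)
      fun n => (hconv n).2.1
  · have t1 : Tendsto (fun n : ℕ => ENNReal.ofReal (η * (2 + |T|) / 2 ^ n)) atTop (𝓝 0) := by
      rw [← ENNReal.ofReal_zero]
      refine ENNReal.tendsto_ofReal (Tendsto.div_atTop tendsto_const_nhds ?_)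
      exact tendsto_pow_atTop_atTop_of_one_lt (by norm_num)
    refine tendsto_of_tendsto_of_tendsto_of_le_of_le tendsto_const_nhds t1 (fun n => zero_le)
      fun n => ?_
    refine iSup₂_le fun t ht => ?_
    have hsub : AEStronglyMeasurable (fun x => V₀ n x - g₀ x) volume :=
      (V₀ n).continuous.aestronglyMeasurable.sub hg₀.1
    obtain ⟨m, nn⟩ := tr_norm i (fun x => V₀ n x - g₀ x) t p hp1 hsub
    have e : (fun x => wv (V₀ n) (V₁ n) t x - (tr i g₀ t x + R t x))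
        = (fun x => Ew i t (V₀ n) (V₁ n) x - R t x) + tr i (fun x => V₀ n x - g₀ x) t := by
      ext x
      simp only [Pi.add_apply, Ew_eq, tr]
      ring
    rw [e]
    refine (eLpNorm_add_le ((Ew_cont i t _ _).aestronglyMeasurable.sub (hR t).1.1) m hp1).trans ?_
    refine (add_le_add ((hconv n).2.2 t) (nn.trans (hconv n).1)).trans ?_
    have ht' : |t| ≤ |T| := by
      have h1 : -T ≤ t := ht.1
      have h2 : t ≤ T := ht.2
      rw [abs_le]
      constructor <;> linarith [le_abs_self T]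
    rw [← ENNReal.ofReal_add (by positivity) (by positivity)]
    refine ENNReal.ofReal_le_ofReal ?_
    rw [← add_div]
    gcongr
    nlinarith
  · have e : (fun x => tr i g₀ t x + R t x - tr i g₀ t x) = R t := by ext x; simp
    simp only
    rw [e]
    exact (hR t).2
  · obtain ⟨m, n⟩ := tr_norm i g₀ t p hp1 hg₀.1
    exact (eLpNorm_add_le m (hR t).1.1 hp1).trans (add_le_add n (hR t).2)

end Pool.Agent.H197.WC
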