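import Mathlib
import Pool.Agent.H197.WC.Fin
import Pool.Agent.H197.WC.Build
set_option autoImplicit false
set_option linter.unusedSectionVars false

/-! Conclusions for the wave equation with measurable data. -/

namespace Pool.Agent.H197.WC

open MeasureTheory Set Filter Topology
open scoped ENNReal NNReal FourierTransform RealInnerProductSpace SchwartzMap

section
variable {E : Type*} [NormedAddCommGroup E] [InnerProductSpace ℝ E] [FiniteDimensional ℝ E]
  [MeasurableSpace E] [BorelSpace E]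

lemma wv_cont2 (v₀ v₁ : 𝓢(E, ℂ)) : Continuous fun z : ℝ × E => wv v₀ v₁ z.1 z.2 := by
  rw [continuous_iff_continuousAt]
  rintro ⟨t₀, x₀⟩
  have e : (fun z : ℝ × E => wv v₀ v₁ z.1 z.2) = fun z => ∫ ξ,
      ((Real.fourierChar ⟪ξ, z.2⟫ : Circle) : ℂ) *
      (((Real.cos (2 * Real.pi * z.1 * ‖ξ‖) : ℝ) : ℂ) * 𝓕 v₀ ξ +
      ((z.1 * Real.sinc (2 * Real.pi * z.1 * ‖ξ‖) : ℝ) : ℂ) * 𝓕 v₁ ξ) := by
    ext z
    unfold wv
    rw [finv_apply]
  rw [e]
  have hsc := Real.continuous_sinc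
  have hch : Continuous fun a : ℝ => ((Real.fourierChar a : Circle) : ℂ) :=
    continuous_subtype_val.comp Real.continuous_fourierChar
  have hF0 : Continuous fun ξ => 𝓕 v₀ ξ := (𝓕 v₀).continuous
  have hF1 : Continuous fun ξ => 𝓕 v₁ ξ := (𝓕 v₁).continuous
  refine continuousAt_of_dominated (bound := fun ξ => ‖𝓕 v₀ ξ‖ + (|t₀| + 1) * ‖𝓕 v₁ ξ‖) ?_ ?_ ?_ ?_
  · refine Eventually.of_forall fun z => Continuous.aestronglyMeasurable ?_
    fun_prop
  · have hn : {z : ℝ × E | |z.1| < |t₀| + 1} ∈ 𝓝 (t₀, x₀) :=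
      (isOpen_lt (by fun_prop) continuous_const).mem_nhds (by simp)
    filter_upwards [hn] with z hz
    refine ae_of_all _ fun ξ => ?_
    rw [norm_mul, Circle.norm_coe, one_mul]
    refine (norm_add_le _ _).trans ?_
    rw [norm_mul, norm_mul, Complex.norm_real, Complex.norm_real, Real.norm_eq_abs,
      Real.norm_eq_abs, abs_mul]
    refine add_le_add (mul_le_of_le_one_left (norm_nonneg _) (Real.abs_cos_le_one _)) ?_
    refine mul_le_mul_of_nonneg_right ?_ (norm_nonneg _)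
    refine (mul_le_of_le_one_right (abs_nonneg _) (Real.abs_sinc_le_one _)).trans ?_
    exact le_of_lt hz
  · exact (𝓕 v₀).integrable.norm.add ((𝓕 v₁).integrable.norm.const_mul _)
  · refine ae_of_all _ fun ξ => Continuous.continuousAt ?_
    fun_prop

/-- One function in `L^p`. -/
lemma oneLp (p : ℝ≥0∞) (hp : 1 ≤ p) (f g : E → ℂ) (ε η : ℝ) (hε : 0 < ε)
    (hη : 0 < η) (h v : ℕ → 𝓢(E, ℂ))
    (h0 : eLpNorm (h 0) p volume ≤ eLpNorm f p volume + ENNReal.ofReal (ε * η / 100))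
    (h1 : ∀ k : ℕ, eLpNorm (h (k + 1)) p volume ≤ ENNReal.ofReal (2 * (ε * η / 100 / 8 ^ k)))
    (hv : ∀ k x, ‖v k x‖ ≤ 8 * 2 ^ k / ε * ‖h k x‖)
    (hg : ∀ x, Tendsto (fun n => ∑ k ∈ Finset.range n, v k x) atTop (𝓝 (g x))) :
    MemLp g p volume ∧
      eLpNorm g p volume ≤ ENNReal.ofReal (8 / ε) * eLpNorm f p volume + ENNReal.ofReal η ∧
      ∀ n : ℕ, eLpNorm (fun x => (∑ k ∈ Finset.range (n + 1), v k) x - g x) p volume
        ≤ ENNReal.ofReal (η / 2 ^ n) := by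
  have hvm : ∀ k, MemLp (v k) p volume := fun k => (v k).memLp p
  have hvn : ∀ k : ℕ, eLpNorm (v k) p volume
      ≤ ENNReal.ofReal (8 * 2 ^ k / ε) * eLpNorm (h k) p volume := fun k =>
    eLpNorm_le_mul_eLpNorm_of_ae_le_mul (ae_of_all _ (hv k)) p
  have hw : ∀ k : ℕ, eLpNorm (v (k + 1)) p volume ≤ ENNReal.ofReal (16 / 25 * η / 2 ^ (k + 1)) := by
    intro k
    refine (hvn (k + 1)).trans ((mul_le_mul_right (h1 k) _).trans ?_)
    rw [← ENNReal.ofReal_mul (by positivity)]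
    refine ENNReal.ofReal_le_ofReal ?_
    have h8 : (8 : ℝ) ^ k = 2 ^ k * 2 ^ k * 2 ^ k := by
      rw [← mul_pow, ← mul_pow]; norm_num
    have h1 : (1 : ℝ) ≤ 2 ^ k := one_le_pow₀ (by norm_num)
    rw [h8]
    have e : 8 * 2 ^ (k + 1) / ε * (2 * (ε * η / 100 / (2 ^ k * 2 ^ k * 2 ^ k)))
        = 8 / 25 * η / (2 ^ k * 2 ^ k) := by
      field_simp
      ring
    have e2 : 16 / 25 * η / 2 ^ (k + 1) = 8 / 25 * η / 2 ^ k := by
      rw [pow_succ]; field_simp; ring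
    rw [e, e2]
    gcongr
    nlinarith
  have hlim : ∀ x, Tendsto (fun n => ∑ k ∈ Finset.range n, v (k + 1) x) atTop
      (𝓝 (g x - v 0 x)) := by
    intro x
    have h2 := ((tendsto_add_atTop_iff_nat 1).2 (hg x)).sub_const (v 0 x)
    refine h2.congr fun n => ?_
    rw [Finset.sum_range_succ']
    ring
  have hconv : ∀ n : ℕ, eLpNorm (fun x => ∑ k ∈ Finset.range n, v (k + 1) x - (g x - v 0 x)) p
      volume ≤ ENNReal.ofReal (16 / 25 * η / 2 ^ n) :=
    fatou p hp (fun k => v (k + 1)) (fun k => (hvm _).1) _ (by positivity) hw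
      (fun x => g x - v 0 x) hlim
  have hgm : AEStronglyMeasurable g volume := by
    refine aestronglyMeasurable_of_tendsto_ae atTop (f := fun n x => ∑ k ∈ Finset.range n, v k x)
      (fun n => ?_) (ae_of_all _ hg)
    exact (continuous_finsetSum _ fun k _ => (v k).continuous).aestronglyMeasurable
  have hd : eLpNorm (fun x => g x - v 0 x) p volume ≤ ENNReal.ofReal (16 / 25 * η) := by
    have h2 := hconv 0
    simp only [Finset.range_zero, Finset.sum_empty, zero_sub, pow_zero, div_one] at h2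
    have e : (fun x => -(g x - v 0 x)) = -(fun x => g x - v 0 x) := rfl
    rwa [e, eLpNorm_neg] at h2
  have hv0 : eLpNorm (v 0) p volume ≤ ENNReal.ofReal (8 / ε) * eLpNorm f p volume +
      ENNReal.ofReal (2 / 25 * η) := by
    have h2 := hvn 0
    rw [pow_zero, mul_one] at h2
    refine h2.trans ((mul_le_mul_right h0 _).trans ?_)
    have e25 : 8 / ε * (ε * η / 100) = 2 / 25 * η := by
      field_simp
      norm_num
    rw [mul_add, ← ENNReal.ofReal_mul (by positivity), e25]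
  have hgb : eLpNorm g p volume ≤ eLpNorm (v 0) p volume + ENNReal.ofReal (16 / 25 * η) := by
    have e : g = v 0 + fun x => g x - v 0 x := by ext x; simp
    conv_lhs => rw [e]
    refine (eLpNorm_add_le (hvm 0).1 (hgm.sub (hvm 0).1) hp).trans ?_
    exact add_le_add le_rfl hd
  refine ⟨⟨hgm, ?_⟩, ?_, fun n => ?_⟩
  · exact hgb.trans_lt (ENNReal.add_lt_top.2 ⟨(hvm 0).2, ENNReal.ofReal_lt_top⟩)
  · refine hgb.trans ((add_le_add hv0 le_rfl).trans ?_)
    rw [add_assoc, ← ENNReal.ofReal_add (by positivity) (by positivity)]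
    gcongr
    linarith
  · have e : (fun x => (∑ k ∈ Finset.range (n + 1), v k) x - g x)
        = fun x => ∑ k ∈ Finset.range n, v (k + 1) x - (g x - v 0 x) := by
      ext x
      rw [sum_apply, Finset.sum_range_succ']
      ring
    rw [e]
    refine (hconv n).trans (ENNReal.ofReal_le_ofReal ?_)
    gcongr
    linarith

end

variable {d : ℕ}

/-- convergence of solutions, locally uniformly and in `L^p` for `p ∈ P` -/
def SolP (P : Set ℝ≥0∞) (g₀ g₁ : RR d → ℂ) (U : ℝ → RR d → ℂ) : Prop :=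
  ∃ v₀ v₁ : ℕ → 𝓢(RR d, ℂ),
    TendstoLocallyUniformly (fun n x => v₀ n x) g₀ atTop ∧
    TendstoLocallyUniformly (fun n x => v₁ n x) g₁ atTop ∧
    TendstoLocallyUniformly (fun n (z : ℝ × RR d) => wv (v₀ n) (v₁ n) z.1 z.2)
      (fun z => U z.1 z.2) atTop ∧
    ∀ p ∈ P,
      Tendsto (fun n => eLpNorm (fun x => v₀ n x - g₀ x) p volume) atTop (𝓝 0) ∧
      Tendsto (fun n => eLpNorm (fun x => v₁ n x - g₁ x) p volume) atTop (𝓝 0) ∧
      ∀ T : ℝ, Tendsto (fun n => ⨆ t ∈ Icc (-T) T,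
        eLpNorm (fun x => wv (v₀ n) (v₁ n) t x - U t x) p volume) atTop (𝓝 0)

lemma locadd (i : Fin d) (V : ℕ → 𝓢(RR d, ℂ)) (g : RR d → ℂ)
    (hV : TendstoLocallyUniformly (fun n x => V n x) g atTop) (V₁ : ℕ → 𝓢(RR d, ℂ))
    (R : ℝ → RR d → ℂ) (η : ℝ) (hη : 0 < η)
    (hR : ∀ (n : ℕ) t x, ‖Ew i t (V n) (V₁ n) x - R t x‖ ≤ η * (1 + |t|) / 2 ^ n) :
    TendstoLocallyUniformly (fun n (z : ℝ × RR d) => wv (V n) (V₁ n) z.1 z.2)
      (fun z => tr i g z.1 z.2 + R z.1 z.2) atTop := by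
  have c1 : Continuous fun z : ℝ × RR d => z.2 + z.1 • (EuclideanSpace.single i 1 : RR d) := by
    fun_prop
  have c2 : Continuous fun z : ℝ × RR d => z.2 - z.1 • (EuclideanSpace.single i 1 : RR d) := by
    fun_prop
  have u1 := hV.comp _ c1
  have u2 := hV.comp _ c2
  rw [Metric.tendstoLocallyUniformly_iff] at u1 u2 ⊢
  intro δ hδ z₀
  obtain ⟨s1, hs1, h1⟩ := u1 (δ / 2) (by linarith) z₀
  obtain ⟨s2, hs2, h2⟩ := u2 (δ / 2) (by linarith) z₀
  have hs3 : {z : ℝ × RR d | |z.1| < |z₀.1| + 1} ∈ 𝓝 z₀ :=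
    (isOpen_lt (by fun_prop) continuous_const).mem_nhds (by simp)
  have ht : Tendsto (fun n : ℕ => η * (2 + |z₀.1|) / 2 ^ n) atTop (𝓝 0) :=
    Tendsto.div_atTop tendsto_const_nhds (tendsto_pow_atTop_atTop_of_one_lt (by norm_num))
  refine ⟨s1 ∩ s2 ∩ {z | |z.1| < |z₀.1| + 1}, inter_mem (inter_mem hs1 hs2) hs3, ?_⟩
  filter_upwards [h1, h2, ht.eventually (gt_mem_nhds (show (0 : ℝ) < δ / 2 by linarith))] with n
    a1 a2 a3 z hz
  have b1 := a1 z hz.1.1
  have b2 := a2 z hz.1.2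
  have hz3 : |z.1| < |z₀.1| + 1 := hz.2
  simp only [Function.comp_apply, dist_eq_norm] at b1 b2 ⊢
  have b3 := hR n z.1 z.2
  have e : tr i g z.1 z.2 + R z.1 z.2 - wv (V n) (V₁ n) z.1 z.2
      = ((g (z.2 + z.1 • EuclideanSpace.single i 1) -
          V n (z.2 + z.1 • EuclideanSpace.single i 1)) +
        (g (z.2 - z.1 • EuclideanSpace.single i 1) -
          V n (z.2 - z.1 • EuclideanSpace.single i 1))) / 2 -
        (Ew i z.1 (V n) (V₁ n) z.2 - R z.1 z.2) := by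
    rw [Ew_eq]
    unfold tr
    ring
  rw [e]
  refine (norm_sub_le _ _).trans_lt ?_
  have b4 : ‖((g (z.2 + z.1 • EuclideanSpace.single i 1) -
          V n (z.2 + z.1 • EuclideanSpace.single i 1)) +
        (g (z.2 - z.1 • EuclideanSpace.single i 1) -
          V n (z.2 - z.1 • EuclideanSpace.single i 1))) / 2‖ < δ / 2 := by
    rw [norm_div, Complex.norm_ofNat]
    have := norm_add_le (g (z.2 + z.1 • EuclideanSpace.single i 1) -
          V n (z.2 + z.1 • EuclideanSpace.single i 1))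
          (g (z.2 - z.1 • EuclideanSpace.single i 1) -
          V n (z.2 - z.1 • EuclideanSpace.single i 1))
    linarith
  have b5 : η * (1 + |z.1|) / 2 ^ n ≤ η * (2 + |z₀.1|) / 2 ^ n :=
    div_le_div_of_nonneg_right (mul_le_mul_of_nonneg_left (by linarith) hη.le) (by positivity)
  linarith

lemma sup_lim (i : Fin d) (p : ℝ≥0∞) (hp : 2 ≤ p) (V₀ V₁ : ℕ → 𝓢(RR d, ℂ)) (g₀ : RR d → ℂ)
    (hg₀ : AEStronglyMeasurable g₀ volume) (R : ℝ → RR d → ℂ) (η : ℝ) (hη : 0 < η)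
    (hRm : ∀ t, AEStronglyMeasurable (R t) volume)
    (h0 : ∀ n : ℕ, eLpNorm (fun x => V₀ n x - g₀ x) p volume ≤ ENNReal.ofReal (η / 2 ^ n))
    (hR : ∀ (n : ℕ) t, eLpNorm (fun x => Ew i t (V₀ n) (V₁ n) x - R t x) p volume
      ≤ ENNReal.ofReal (η * (1 + |t|) / 2 ^ n)) (T : ℝ) :
    Tendsto (fun n => ⨆ t ∈ Icc (-T) T, eLpNorm (fun x => wv (V₀ n) (V₁ n) t x -
      (tr i g₀ t x + R t x)) p volume) atTop (𝓝 0) := by
  have hp1 : 1 ≤ p := le_trans (by norm_num) hp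
  have t1 : Tendsto (fun n : ℕ => ENNReal.ofReal (η * (2 + |T|) / 2 ^ n)) atTop (𝓝 0) := by
    rw [← ENNReal.ofReal_zero]
    refine ENNReal.tendsto_ofReal (Tendsto.div_atTop tendsto_const_nhds ?_)
    exact tendsto_pow_atTop_atTop_of_one_lt (by norm_num)
  refine tendsto_of_tendsto_of_tendsto_of_le_of_le tendsto_const_nhds t1 (fun n => zero_le)
    fun n => ?_
  refine iSup₂_le fun t ht => ?_
  have hsub : AEStronglyMeasurable (fun x => V₀ n x - g₀ x) volume :=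
    (V₀ n).continuous.aestronglyMeasurable.sub hg₀
  obtain ⟨m, nn⟩ := tr_norm i (fun x => V₀ n x - g₀ x) t p hp1 hsub
  have e : (fun x => wv (V₀ n) (V₁ n) t x - (tr i g₀ t x + R t x))
      = (fun x => Ew i t (V₀ n) (V₁ n) x - R t x) + tr i (fun x => V₀ n x - g₀ x) t := by
    ext x
    simp only [Pi.add_apply, Ew_eq, tr]
    ring
  rw [e]
  refine (eLpNorm_add_le ((Ew_cont i t _ _).aestronglyMeasurable.sub (hRm t)) m hp1).trans ?_
  refine (add_le_add (hR n t) (nn.trans (h0 n))).trans ?_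
  have ht' : |t| ≤ |T| := by
    have h1 : -T ≤ t := ht.1
    have h2 : t ≤ T := ht.2
    rw [abs_le]
    constructor <;> linarith [le_abs_self T]
  rw [← ENNReal.ofReal_add (by positivity) (by positivity)]
  refine ENNReal.ofReal_le_ofReal ?_
  rw [← add_div]
  refine div_le_div_of_nonneg_right ?_ (by positivity)
  nlinarith

lemma Ew_cont2 (i : Fin d) (u₀ u₁ : 𝓢(RR d, ℂ)) :
    Continuous fun z : ℝ × RR d => Ew i z.1 u₀ u₁ z.2 := by
  have h1 := wv_cont2 u₀ u₁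
  have h2 := u₀.continuous
  unfold Ew
  fun_prop

end Pool.Agent.H197.WC
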