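import Mathlib
import Pool.Agent.H197.WC.FinM
set_option autoImplicit false
set_option linter.unusedSectionVars false

/-! The theorems for measurable data and for data in `L^p`. -/

namespace Pool.Agent.H197.WC

open MeasureTheory Set Filter Topology
open scoped ENNReal NNReal FourierTransform RealInnerProductSpace SchwartzMap

variable {d : ℕ}

/-- all that follows from the construction -/
theorem core (i : Fin d) (f₀ f₁ : RR d → ℂ) (ε η : ℝ) (hε : 0 < ε) (hε1 : ε ≤ 1) (hη : 0 < η)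
    (D₀ D₁ : Set (RR d)) (hD₀ : MeasurableSet D₀) (hD₁ : MeasurableSet D₁)
    (hv₀ : volume D₀ ≤ ENNReal.ofReal (ε / 4)) (hv₁ : volume D₁ ≤ ENNReal.ofReal (ε / 4))
    (h₀ h₁ : ℕ → 𝓢(RR d, ℂ))
    (hl₀ : ∀ x, x ∉ D₀ → Tendsto (fun n => ∑ k ∈ Finset.range n, h₀ k x) atTop (𝓝 (f₀ x)))
    (hl₁ : ∀ x, x ∉ D₁ → Tendsto (fun n => ∑ k ∈ Finset.range n, h₁ k x) atTop (𝓝 (f₁ x)))
    (hc₀ : ∀ r : ℝ, ∃ K : ℕ, ∀ k, K ≤ k → ∀ x, ‖x‖ ≤ r → ‖h₀ k x‖ ≤ ε * η / (8 * 4 ^ k))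
    (hc₁ : ∀ r : ℝ, ∃ K : ℕ, ∀ k, K ≤ k → ∀ x, ‖x‖ ≤ r → ‖h₁ k x‖ ≤ ε * η / (8 * 4 ^ k)) :
    ∃ (g₀ g₁ : RR d → ℂ) (B : Set (RR d)) (U : ℝ → RR d → ℂ), Sp (range cube) ε B ∧
      (∀ x, x ∉ B → g₀ x = f₀ x ∧ g₁ x = f₁ x) ∧ Continuous g₀ ∧ Continuous g₁ ∧
      Continuous (fun z : ℝ × RR d => U z.1 z.2) ∧ (∀ x, U 0 x = g₀ x) ∧
      (∀ (t : ℝ) (q : ℝ≥0∞), 2 ≤ q →
        eLpNorm (fun x => U t x - tr i g₀ t x) q volume ≤ ENNReal.ofReal (η * (1 + |t|))) ∧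
      SolP ∅ g₀ g₁ U ∧
      ∀ p : ℝ≥0∞, 2 ≤ p →
        eLpNorm (h₀ 0) p volume ≤ eLpNorm f₀ p volume + ENNReal.ofReal (ε * η / 100) →
        eLpNorm (h₁ 0) p volume ≤ eLpNorm f₁ p volume + ENNReal.ofReal (ε * η / 100) →
        (∀ k : ℕ, eLpNorm (h₀ (k + 1)) p volume ≤ ENNReal.ofReal (2 * (ε * η / 100 / 8 ^ k))) →
        (∀ k : ℕ, eLpNorm (h₁ (k + 1)) p volume ≤ ENNReal.ofReal (2 * (ε * η / 100 / 8 ^ k))) →
        SolP {p} g₀ g₁ U ∧ MemLp g₀ p volume ∧ MemLp g₁ p volume ∧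
        eLpNorm g₀ p volume ≤ ENNReal.ofReal (8 / ε) * eLpNorm f₀ p volume + ENNReal.ofReal η ∧
        eLpNorm g₁ p volume ≤ ENNReal.ofReal (8 / ε) * eLpNorm f₁ p volume + ENNReal.ofReal η := by
  have hD : Sp (range cube) (ε / 2) (D₀ ∪ D₁) := by
    refine ⟨hD₀.union hD₁, fun Q _ => (measure_mono inter_subset_left).trans ?_⟩
    refine (measure_union_le _ _).trans ((add_le_add hv₀ hv₁).trans ?_)
    rw [← ENNReal.ofReal_add (by positivity) (by positivity)]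
    exact ENNReal.ofReal_le_ofReal (by linarith)
  obtain ⟨v₀, v₁, g₀, g₁, B, R, hB, heq, hbd, hg₀, hg₁, hR, hR2⟩ :=
    build (engW i) f₀ f₁ ε η hε hε1 hη (D₀ ∪ D₁) hD h₀ h₁
      (fun x hx => hl₀ x fun h => hx (Or.inl h)) (fun x hx => hl₁ x fun h => hx (Or.inr h)) hc₀ hc₁
  have g₀c : Continuous g₀ := by
    refine hg₀.continuous (Eventually.of_forall fun n => ?_).frequently
    exact continuous_finsetSum _ fun k _ => (v₀ k).continuous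
  have g₁c : Continuous g₁ := by
    refine hg₁.continuous (Eventually.of_forall fun n => ?_).frequently
    exact continuous_finsetSum _ fun k _ => (v₁ k).continuous
  have pt₀ : ∀ x, Tendsto (fun n => ∑ k ∈ Finset.range n, v₀ k x) atTop (𝓝 (g₀ x)) := fun x =>
    (tendstoLocallyUniformlyOn_univ.2 hg₀).tendsto_at (mem_univ x)
  have pt₁ : ∀ x, Tendsto (fun n => ∑ k ∈ Finset.range n, v₁ k x) atTop (𝓝 (g₁ x)) := fun x =>
    (tendstoLocallyUniformlyOn_univ.2 hg₁).tendsto_at (mem_univ x)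
  -- the approximating data
  set V₀ : ℕ → 𝓢(RR d, ℂ) := fun n => ∑ k ∈ Finset.range (n + 1), v₀ k with hV₀
  set V₁ : ℕ → 𝓢(RR d, ℂ) := fun n => ∑ k ∈ Finset.range (n + 1), v₁ k with hV₁
  have hsh : ∀ (F : ℕ → RR d → ℂ) (g : RR d → ℂ), TendstoLocallyUniformly F g atTop →
      TendstoLocallyUniformly (fun n => F (n + 1)) g atTop := by
    intro F g hF s hs x
    obtain ⟨t, ht, h⟩ := hF s hs x
    exact ⟨t, ht, (tendsto_add_atTop_nat 1).eventually h⟩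
  have hu₀ : TendstoLocallyUniformly (fun n x => V₀ n x) g₀ atTop := by
    have := hsh _ _ hg₀
    simpa only [hV₀, sum_apply] using this
  have hu₁ : TendstoLocallyUniformly (fun n x => V₁ n x) g₁ atTop := by
    have := hsh _ _ hg₁
    simpa only [hV₁, sum_apply] using this
  have hErr : ∀ (n : ℕ) t x, Ew i t (V₀ n) (V₁ n) x
      = ∑ k ∈ Finset.range (n + 1), Ew i t (v₀ k) (v₁ k) x := fun n t x =>
    (engW i).sum t v₀ v₁ (n + 1) x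
  have hpow : ∀ (n : ℕ) (t : ℝ), η * (1 + |t|) / 2 ^ (n + 1) ≤ η * (1 + |t|) / 2 ^ n := by
    intro n t
    gcongr
    · norm_num
    · omega
  have hRx : ∀ (n : ℕ) t x, ‖Ew i t (V₀ n) (V₁ n) x - R t x‖ ≤ η * (1 + |t|) / 2 ^ n := by
    intro n t x
    rw [hErr]
    exact (hR t (n + 1) x).trans (hpow n t)
  have hRn2 : ∀ (n : ℕ) t, eLpNorm (fun x => Ew i t (V₀ n) (V₁ n) x - R t x) 2 volume
      ≤ ENNReal.ofReal (η * (1 + |t|) / 2 ^ n) := by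
    intro n t
    simp only [hErr]
    exact (hR2 t (n + 1)).trans (ENNReal.ofReal_le_ofReal (hpow n t))
  have hRx0 : ∀ t x, ‖R t x‖ ≤ η * (1 + |t|) := by
    intro t x
    have := hR t 0 x
    simpa using this
  have hR0 : ∀ t, eLpNorm (R t) 2 volume ≤ ENNReal.ofReal (η * (1 + |t|)) := by
    intro t
    have := hR2 t 0
    simp only [Finset.range_zero, Finset.sum_empty, zero_sub, pow_zero, div_one] at this
    have e : (fun x => -R t x) = -R t := rfl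
    rwa [e, eLpNorm_neg] at this
  have hUloc := locadd i V₀ g₀ hu₀ V₁ R η hη hRx
  have hUc : Continuous fun z : ℝ × RR d => tr i g₀ z.1 z.2 + R z.1 z.2 :=
    hUloc.continuous (Eventually.of_forall fun n => wv_cont2 (V₀ n) (V₁ n)).frequently
  have hRc : ∀ t, Continuous (R t) := by
    intro t
    have h1 : Continuous fun x : RR d => tr i g₀ t x + R t x :=
      hUc.comp (Continuous.prodMk_right t)
    have h2 : Continuous fun x : RR d => tr i g₀ t x := by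
      unfold tr; fun_prop
    have h3 : R t = (fun x => tr i g₀ t x + R t x) - fun x => tr i g₀ t x := by ext x; simp
    rw [h3]
    exact h1.sub h2
  -- at time zero
  have hE0 : ∀ (u₀ u₁ : 𝓢(RR d, ℂ)) x, Ew i 0 u₀ u₁ x = 0 := by
    intro u₀ u₁ x
    unfold Ew wv
    simp only [mul_zero, zero_mul, Real.cos_zero, Complex.ofReal_one, one_mul, Complex.ofReal_zero,
      add_zero, zero_smul, sub_zero]
    have h1 : 𝓕⁻ (𝓕 u₀) = u₀ := FourierTransform.fourierInv_fourier_eq u₀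
    have h2 : 𝓕⁻ (fun ξ => 𝓕 u₀ ξ) x = u₀ x := by
      conv_rhs => rw [← h1]
      rw [SchwartzMap.fourierInv_coe]
    rw [h2]
    ring
  have hR00 : ∀ x, R 0 x = 0 := by
    intro x
    have h1 : ∀ n : ℕ, ‖R 0 x‖ ≤ η * (1 + |(0 : ℝ)|) / 2 ^ n := by
      intro n
      have := hRx n 0 x
      rwa [hE0, zero_sub, norm_neg] at this
    have h2 : Tendsto (fun n : ℕ => η * (1 + |(0 : ℝ)|) / 2 ^ n) atTop (𝓝 0) :=
      Tendsto.div_atTop tendsto_const_nhds (tendsto_pow_atTop_atTop_of_one_lt (by norm_num))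
    exact norm_le_zero_iff.1 (ge_of_tendsto' h2 h1)
  refine ⟨g₀, g₁, B, fun t x => tr i g₀ t x + R t x, hB, heq, g₀c, g₁c, hUc, fun x => ?_,
    fun t q hq => ?_, ⟨V₀, V₁, hu₀, hu₁, hUloc, fun p hp => absurd hp (Set.notMem_empty p)⟩, ?_⟩
  · simp only [hR00, tr, zero_smul, add_zero, sub_zero]
    ring
  · have e : (fun x => tr i g₀ t x + R t x - tr i g₀ t x) = R t := by ext x; simp
    simp only
    rw [e]
    exact interp (R t) _ (by positivity) (hRx0 t) (hR0 t) q hq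
  · intro p hp n₀ n₁ m₀ m₁
    have hp1 : 1 ≤ p := le_trans (by norm_num) hp
    obtain ⟨a1, a2, a3⟩ := oneLp p hp1 f₀ g₀ ε η hε hη h₀ v₀ n₀ m₀ (fun k x => (hbd k x).1) pt₀
    obtain ⟨b1, b2, b3⟩ := oneLp p hp1 f₁ g₁ ε η hε hη h₁ v₁ n₁ m₁ (fun k x => (hbd k x).2) pt₁
    have t0 : Tendsto (fun n : ℕ => ENNReal.ofReal (η / 2 ^ n)) atTop (𝓝 0) := by
      rw [← ENNReal.ofReal_zero]
      refine ENNReal.tendsto_ofReal (Tendsto.div_atTop tendsto_const_nhds ?_)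
      exact tendsto_pow_atTop_atTop_of_one_lt (by norm_num)
    refine ⟨⟨V₀, V₁, hu₀, hu₁, hUloc, ?_⟩, a1, b1, a2, b2⟩
    intro p' hp'
    rw [mem_singleton_iff] at hp'
    subst hp'
    refine ⟨?_, ?_, fun T => ?_⟩
    · exact tendsto_of_tendsto_of_tendsto_of_le_of_le tendsto_const_nhds t0 (fun n => zero_le)
        fun n => a3 n
    · exact tendsto_of_tendsto_of_tendsto_of_le_of_le tendsto_const_nhds t0 (fun n => zero_le)
        fun n => b3 n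
    · refine sup_lim i p' hp V₀ V₁ g₀ a1.1 R η hη (fun t => (hRc t).aestronglyMeasurable) a3
        (fun n t => ?_) T
      exact interp _ _ (by positivity) (fun x => hRx n t x) (hRn2 n t) p' hp

theorem measW (i : Fin d) (f₀ f₁ : RR d → ℂ) (hf₀ : Measurable f₀) (hf₁ : Measurable f₁) (ε η : ℝ)
    (hε : 0 < ε) (hε1 : ε ≤ 1) (hη : 0 < η) :
    ∃ (g₀ g₁ : RR d → ℂ) (B : Set (RR d)) (U : ℝ → RR d → ℂ), Sp (range cube) ε B ∧
      (∀ x, x ∉ B → g₀ x = f₀ x ∧ g₁ x = f₁ x) ∧ Continuous g₀ ∧ Continuous g₁ ∧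
      Continuous (fun z : ℝ × RR d => U z.1 z.2) ∧ (∀ x, U 0 x = g₀ x) ∧
      (∀ (t : ℝ) (q : ℝ≥0∞), 2 ≤ q →
        eLpNorm (fun x => U t x - tr i g₀ t x) q volume ≤ ENNReal.ofReal (η * (1 + |t|))) ∧
      SolP ∅ g₀ g₁ U := by
  obtain ⟨h₀, D₀, m₀, v₀, l₀, c₀⟩ := schA f₀ hf₀ ε η hε hη
  obtain ⟨h₁, D₁, m₁, v₁, l₁, c₁⟩ := schA f₁ hf₁ ε η hε hη
  obtain ⟨g₀, g₁, B, U, a1, a2, a3, a4, a5, a6, a7, a8, -⟩ :=
    core i f₀ f₁ ε η hε hε1 hη D₀ D₁ m₀ m₁ v₀ v₁ h₀ h₁ l₀ l₁ c₀ c₁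
  exact ⟨g₀, g₁, B, U, a1, a2, a3, a4, a5, a6, a7, a8⟩

theorem lpW (i : Fin d) (p : ℝ≥0∞) (hp : 2 ≤ p) (hp' : p ≠ ⊤) (f₀ f₁ : RR d → ℂ)
    (hf₀ : MemLp f₀ p volume) (hf₁ : MemLp f₁ p volume) (ε η : ℝ)
    (hε : 0 < ε) (hε1 : ε ≤ 1) (hη : 0 < η) :
    ∃ (g₀ g₁ : RR d → ℂ) (B : Set (RR d)) (U : ℝ → RR d → ℂ), Sp (range cube) ε B ∧
      (∀ x, x ∉ B → g₀ x = f₀ x ∧ g₁ x = f₁ x) ∧ Continuous g₀ ∧ Continuous g₁ ∧
      Continuous (fun z : ℝ × RR d => U z.1 z.2) ∧ (∀ x, U 0 x = g₀ x) ∧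
      (∀ (t : ℝ) (q : ℝ≥0∞), 2 ≤ q →
        eLpNorm (fun x => U t x - tr i g₀ t x) q volume ≤ ENNReal.ofReal (η * (1 + |t|))) ∧
      SolP {p} g₀ g₁ U ∧ MemLp g₀ p volume ∧ MemLp g₁ p volume ∧
      eLpNorm g₀ p volume ≤ ENNReal.ofReal (8 / ε) * eLpNorm f₀ p volume + ENNReal.ofReal η ∧
      eLpNorm g₁ p volume ≤ ENNReal.ofReal (8 / ε) * eLpNorm f₁ p volume + ENNReal.ofReal η ∧
      ∀ t, eLpNorm (U t) p volume ≤ eLpNorm g₀ p volume + ENNReal.ofReal (η * (1 + |t|)) := by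
  have hp1 : 1 ≤ p := le_trans (by norm_num) hp
  obtain ⟨h₀, D₀, m₀, v₀, l₀, c₀, e₀, n₀⟩ := schB p hp1 hp' f₀ hf₀ ε η hε hη
  obtain ⟨h₁, D₁, m₁, v₁, l₁, c₁, e₁, n₁⟩ := schB p hp1 hp' f₁ hf₁ ε η hε hη
  obtain ⟨g₀, g₁, B, U, a1, a2, a3, a4, a5, a6, a7, -, a9⟩ :=
    core i f₀ f₁ ε η hε hε1 hη D₀ D₁ m₀ m₁ v₀ v₁ h₀ h₁ l₀ l₁
      (fun r => ⟨1, fun k hk x _ => c₀ k hk x⟩) (fun r => ⟨1, fun k hk x _ => c₁ k hk x⟩)
  obtain ⟨b1, b2, b3, b4, b5⟩ := a9 p hp e₀ e₁ n₀ n₁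
  refine ⟨g₀, g₁, B, U, a1, a2, a3, a4, a5, a6, a7, b1, b2, b3, b4, b5, fun t => ?_⟩
  obtain ⟨m, n⟩ := tr_norm i g₀ t p hp1 b2.1
  have hUt : Continuous (U t) := a5.comp (Continuous.prodMk_right t)
  have e : U t = tr i g₀ t + fun x => U t x - tr i g₀ t x := by ext x; simp
  rw [e]
  exact (eLpNorm_add_le m (hUt.aestronglyMeasurable.sub m) hp1).trans (add_le_add n (a7 t p hp))

end Pool.Agent.H197.WC
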